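import Pool.Agent.Q267.SE.Gen

/-!
The eigenspaces of abelian covers of the projective line at the primes `p = 1 mod m`.
-/

set_option autoImplicit false

open Polynomial

namespace Pool.Agent.Q267.SE

/-- the number of `a ≥ 1` with `m a < S` -/
def rk (m S : ℕ) : ℕ := (S - 1) / m

lemma rk_lt (m S : ℕ) (hm : 0 < m) (hS : 0 < S) : m * rk m S < S := by
  unfold rk
  have := Nat.mul_div_le (S - 1) m
  omega

lemma lt_rk (m S : ℕ) (hm : 0 < m) (hS : 0 < S) : S ≤ m * (rk m S + 1) := by
  unfold rk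
  have := Nat.lt_mul_div_succ (S - 1) hm
  omega

lemma rk_add (m S N : ℕ) (hm : 0 < m) (hS : 0 < S) (hSN : S < N * m) :
    rk m S + rk m (N * m - S) + 1 = N ∨
      (rk m S + rk m (N * m - S) + 2 = N ∧ S = (rk m S + 1) * m) := by
  have h1 := rk_lt m S hm hS
  have h2 := lt_rk m S hm hS
  have h3 := rk_lt m (N * m - S) hm (by omega)
  have h4 := lt_rk m (N * m - S) hm (by omega)
  set r := rk m S
  set r' := rk m (N * m - S)
  by_cases h5 : S = (r + 1) * m
  · right
    refine ⟨?_, h5⟩
    -- m (r' + 1 + r + 1) ≥ N m, and m r' < (N - r - 1) m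
    have h6 : N * m ≤ m * (r' + r + 2) := by
      have : m * (r' + r + 2) = m * (r' + 1) + (r + 1) * m := by ring
      omega
    have h7 : m * (r' + r + 1) < N * m := by
      have : m * (r' + r + 1) = m * r' + (r + 1) * m := by ring
      omega
    rw [mul_comm N m] at h6 h7
    have h8 := Nat.le_of_mul_le_mul_left h6 hm
    have h9 := Nat.lt_of_mul_lt_mul_left h7
    omega
  · left
    have h5' : S < (r + 1) * m := by
      have : m * (r + 1) = (r + 1) * m := mul_comm _ _
      omega
    have h6 : N * m < m * (r' + r + 2) := by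
      have : m * (r' + r + 2) = m * (r' + 1) + (r + 1) * m := by ring
      omega
    have h7 : m * (r' + r) < N * m := by
      have : m * (r' + r) = m * r' + m * r := by ring
      omega
    rw [mul_comm N m] at h6 h7
    have h8 := Nat.lt_of_mul_lt_mul_left h6
    have h9 := Nat.lt_of_mul_lt_mul_left h7
    omega

/-- The generic member of the family, in terms of the inertia. -/
lemma generic_block {R : Type*} [CommRing R] [IsDomain R] (p : ℕ) [hp : Fact p.Prime] [CharP R p]
    (δ : R →+ R) (hδ : ∀ a b, δ (a * b) = a * δ b + b * δ a) (m q : ℕ) (hm : 0 < m)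
    (hq : p = m * q + 1) {J : Type*} [Fintype J]
    (z : J → R) (hz : Function.Injective z) (hzδ : ∀ j, δ (z j) = 0) (t : R) (ht : δ t = 1)
    (n : J → ℕ) (hn : ∀ j, 0 < n j ∧ n j < m) (n0 : ℕ) (hn0 : 0 < n0 ∧ n0 < m)
    (hJq : Fintype.card J + 1 ≤ q) :
    (hw p (rk m (n0 + ∑ j, n j)) ((X - C t) ^ (n0 * q) * fp z (fun j => n j * q))).det ≠ 0 := by
  obtain ⟨S, hS⟩ : ∃ S, S = n0 + ∑ j, n j := ⟨_, rfl⟩
  obtain ⟨N, hN⟩ : ∃ N, N = Fintype.card J + 1 := ⟨_, rfl⟩
  have hS0 : 0 < S := by omega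
  have hsum1 : (∑ j, n j) + ∑ j, (m - n j) = Fintype.card J * m := by
    rw [← Finset.sum_add_distrib, Finset.sum_congr rfl fun j _ =>
      (show n j + (m - n j) = m by have := hn j; omega)]
    simp
  have hNm : N * m = Fintype.card J * m + m := by rw [hN]; ring
  have hSN : S < N * m := by omega
  have hr1 := rk_lt m S hm hS0
  have hr2 := lt_rk m S hm hS0
  have hr3 := rk_add m S N hm hS0 hSN
  have hq0 : 0 < q := by omega
  have hp1 : p - 1 = m * q := by omega
  -- products with `q`
  have hmul : ∀ a : ℕ, a ≤ m → a * q + (m - a) * q = m * q := by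
    intro a ha
    rw [← add_mul]; congr 1; omega
  rw [← hS]
  have hrN : rk m S + 1 ≤ N := by omega
  have hrN' : rk m (N * m - S) + 1 ≤ N := by omega
  have hDe : n0 * q + ∑ j, n j * q = S * q := by
    rw [hS, add_mul, Finset.sum_mul]
  apply generic p δ hδ z hz hzδ t ht (fun j => n j * q) (fun j => (m - n j) * q) (fun j => by
    have := hmul (n j) (hn j).2.le
    show n j * q + (m - n j) * q + 1 = p
    omega) (n0 * q) ((m - n0) * q) (by have := hmul n0 hn0.2.le; omega)
    (Nat.mul_pos hn0.1 hq0) (Nat.mul_pos (by omega) hq0) (rk m S) (rk m (N * m - S))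
  · rw [hDe]
    have h1 : S * q ≤ m * (rk m S + 1) * q := Nat.mul_le_mul_right q hr2
    have h2 : m * (rk m S + 1) * q = m * q * (rk m S + 1) := by ring
    have h3 : p * (rk m S + 1) = m * q * (rk m S + 1) + (rk m S + 1) := by rw [hq]; ring
    omega
  · rw [hDe, hp1]
    have h1 : m * q * rk m S = m * rk m S * q := by ring
    rw [h1]
    exact Nat.mul_lt_mul_of_pos_right hr1 hq0
  · rcases hr3 with h | ⟨h, h'⟩
    · left; omega
    · right
      refine ⟨by omega, ?_⟩
      rw [hDe, hp1]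
      conv_lhs => rw [h']
      ring
  · have h1 := hmul n0 hn0.2.le
    have h2 : 1 * q ≤ (m - n0) * q := Nat.mul_le_mul_right q (by omega)
    omega
  · have h1 := hmul n0 hn0.2.le
    have h2 : 1 * q ≤ n0 * q := Nat.mul_le_mul_right q (by omega)
    omega

lemma prod_split {M J : Type*} [CommMonoid M] [Fintype J] [DecidableEq J] (f : J → M)
    (P : J → Prop) [DecidablePred P] (j0 : J) (h : ∀ j, ¬ P j → j ≠ j0 → f j = 1) :
    f j0 * ∏ j : {j : J // P j ∧ j ≠ j0}, f j.1 = ∏ j, f j := by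
  rw [← Finset.mul_prod_erase _ _ (Finset.mem_univ j0)]
  congr 1
  rw [← Finset.prod_subtype (Finset.univ.filter fun j => P j ∧ j ≠ j0) (fun x => by simp) f]
  apply Finset.prod_subset
  · intro j hj
    rw [Finset.mem_filter] at hj
    exact Finset.mem_erase.2 ⟨hj.2.2, Finset.mem_univ _⟩
  · intro j hj hj'
    rw [Finset.mem_erase] at hj
    rw [Finset.mem_filter] at hj'
    apply h j _ hj.1
    intro hP
    exact hj' ⟨Finset.mem_univ _, hP, hj.1⟩

lemma sum_split {M J : Type*} [AddCommMonoid M] [Fintype J] [DecidableEq J] (f : J → M)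
    (P : J → Prop) [DecidablePred P] (j0 : J) (h : ∀ j, ¬ P j → j ≠ j0 → f j = 0) :
    f j0 + ∑ j : {j : J // P j ∧ j ≠ j0}, f j.1 = ∑ j, f j :=
  prod_split (M := Multiplicative M) f P j0 h

/-- The same with an index set which contains the moving point and points without ramification. -/
lemma generic_block' {R : Type*} [CommRing R] [IsDomain R] (p : ℕ) [hp : Fact p.Prime] [CharP R p]
    (δ : R →+ R) (hδ : ∀ a b, δ (a * b) = a * δ b + b * δ a) (m q : ℕ) (hm : 0 < m)
    (hq : p = m * q + 1) {J : Type*} [Fintype J]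
    (z : J → R) (n : J → ℕ) (hn : ∀ j, n j < m) (j0 : J) (hj0 : n j0 ≠ 0)
    (hz : ∀ i j, n i ≠ 0 → n j ≠ 0 → z i = z j → i = j)
    (hzδ : ∀ j, n j ≠ 0 → j ≠ j0 → δ (z j) = 0) (ht : δ (z j0) = 1)
    (hJq : Fintype.card J + 1 ≤ q) :
    (hw p (rk m (∑ j, n j)) (fp z (fun j => n j * q))).det ≠ 0 := by
  classical
  let J' := {j : J // n j ≠ 0 ∧ j ≠ j0}
  have h := generic_block p δ hδ m q hm hq (J := J') (fun j => z j.1) (fun i j hij => by
    exact Subtype.ext (hz i.1 j.1 i.2.1 j.2.1 hij)) (fun j => hzδ j.1 j.2.1 j.2.2) (z j0) ht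
    (fun j => n j.1) (fun j => ⟨Nat.pos_of_ne_zero j.2.1, hn j.1⟩) (n j0)
    ⟨Nat.pos_of_ne_zero hj0, hn j0⟩ (by
      have : Fintype.card J' ≤ Fintype.card J := Fintype.card_subtype_le _
      omega)
  have e1 : n j0 + ∑ j : J', n j.1 = ∑ j, n j :=
    sum_split n (fun j => n j ≠ 0) j0 fun j hj _ => not_not.1 hj
  have e2 : (X - C (z j0)) ^ (n j0 * q) * fp (fun j : J' => z j.1) (fun j => n j.1 * q)
      = fp z (fun j => n j * q) :=
    prod_split (fun j => (X - C (z j)) ^ (n j * q)) (fun j => n j ≠ 0) j0 fun j hj _ => by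
      rw [not_not.1 hj, zero_mul, pow_zero]
  rwa [e1, e2] at h

lemma prod_subtype_ne {M J : Type*} [CommMonoid M] [Fintype J] (f : J → M)
    (P : J → Prop) [DecidablePred P] (h : ∀ j, ¬ P j → f j = 1) :
    ∏ j : {j : J // P j}, f j.1 = ∏ j, f j := by
  rw [← Finset.prod_subtype (Finset.univ.filter fun j => P j) (fun x => by simp) f]
  apply Finset.prod_subset (Finset.subset_univ _)
  intro j _ hj'
  rw [Finset.mem_filter] at hj'
  apply h j
  intro hP
  exact hj' ⟨Finset.mem_univ _, hP⟩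

lemma sum_subtype_ne {M J : Type*} [AddCommMonoid M] [Fintype J] (f : J → M)
    (P : J → Prop) [DecidablePred P] (h : ∀ j, ¬ P j → f j = 0) :
    ∑ j : {j : J // P j}, f j.1 = ∑ j, f j :=
  prod_subtype_ne (M := Multiplicative M) f P h

/-- If the opposite eigenspace is zero, the matrix is invertible without moving a point. -/
lemma rigid_block {R : Type*} [CommRing R] [IsDomain R] (p : ℕ) [hp : Fact p.Prime] [CharP R p]
    (m q : ℕ) (hm : 0 < m) (hq : p = m * q + 1) {J : Type*} [Fintype J]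
    (z : J → R) (n : J → ℕ) (hn : ∀ j, n j < m)
    (hz : ∀ i j, n i ≠ 0 → n j ≠ 0 → z i = z j → i = j)
    (hr : rk m (∑ j, if n j = 0 then 0 else m - n j) = 0) (hq0 : 0 < q) :
    (hw p (rk m (∑ j, n j)) (fp z (fun j => n j * q))).det ≠ 0 := by
  classical
  by_cases hall : ∀ j, n j = 0
  · have h0 : rk m (∑ j, n j) = 0 := by
      rw [Finset.sum_eq_zero fun j _ => hall j]
      unfold rk
      exact Nat.zero_div m
    have h1 : IsEmpty (Fin (rk m (∑ j, n j))) := by rw [h0]; infer_instance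
    rw [Matrix.det_isEmpty]
    exact one_ne_zero
  push Not at hall
  obtain ⟨j0, hj0⟩ := hall
  let J' := {j : J // n j ≠ 0}
  have e1 : ∑ j : J', n j.1 = ∑ j, n j :=
    sum_subtype_ne n (fun j => n j ≠ 0) fun j hj => not_not.1 hj
  have e2 : fp (fun j : J' => z j.1) (fun j => n j.1 * q) = fp z (fun j => n j * q) :=
    prod_subtype_ne (fun j => (X - C (z j)) ^ (n j * q)) (fun j => n j ≠ 0) fun j hj => by
      rw [not_not.1 hj, zero_mul, pow_zero]
  have e3 : ∑ j : J', (m - n j.1) = ∑ j, if n j = 0 then 0 else m - n j := by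
    rw [← sum_subtype_ne (fun j => if n j = 0 then 0 else m - n j) (fun j => n j ≠ 0)
      fun j hj => if_pos (not_not.1 hj)]
    exact Finset.sum_congr rfl fun j _ => (if_neg j.2).symm
  have hpos : 0 < ∑ j : J', n j.1 := by
    rw [e1]
    exact lt_of_lt_of_le (Nat.pos_of_ne_zero hj0)
      (Finset.single_le_sum (f := n) (fun _ _ => Nat.zero_le _) (Finset.mem_univ j0))
  have hsum1 : (∑ j : J', n j.1) + ∑ j : J', (m - n j.1) = Fintype.card J' * m := by
    rw [← Finset.sum_add_distrib, Finset.sum_congr rfl fun j _ =>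
      (show n j.1 + (m - n j.1) = m by have := hn j.1; omega)]
    simp
  have hpos' : 0 < ∑ j : J', (m - n j.1) := by
    refine lt_of_lt_of_le (show 0 < m - n j0 by have := hn j0; omega)
      (Finset.single_le_sum (f := fun j : J' => m - n j.1) (fun _ _ => Nat.zero_le _)
        (Finset.mem_univ (⟨j0, hj0⟩ : J')))
  have hadd := rk_add m (∑ j : J', n j.1) (Fintype.card J') hm hpos (by omega)
  have e4 : Fintype.card J' * m - ∑ j : J', n j.1 = ∑ j : J', (m - n j.1) := by omega
  rw [e4, e3, hr] at hadd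
  have hp1 : p - 1 = m * q := by omega
  have hDe : ∑ j : J', n j.1 * q = (∑ j : J', n j.1) * q := by rw [Finset.sum_mul]
  intro hdet
  rw [← e2, ← e1] at hdet
  obtain ⟨B, hB0, hBd, -⟩ := dual p (fun j : J' => z j.1) (fun i j hij =>
      Subtype.ext (hz i.1 j.1 i.2 j.2 hij)) (fun j => n j.1 * q) (fun j => (m - n j.1) * q)
    (fun j => by
      have h1 : n j.1 * q + (m - n j.1) * q = m * q := by
        rw [← add_mul]; congr 1; have := hn j.1; omega
      show n j.1 * q + (m - n j.1) * q + 1 = p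
      omega) (rk m (∑ j : J', n j.1)) 0 (by
      rw [hDe, hp1]
      have h1 : m * q * rk m (∑ j : J', n j.1) = m * rk m (∑ j : J', n j.1) * q := by ring
      rw [h1]
      exact Nat.mul_lt_mul_of_pos_right (rk_lt m _ hm hpos) hq0) (by
      rcases hadd with h | ⟨h, h'⟩
      · left; omega
      · right
        refine ⟨by omega, ?_⟩
        rw [hDe, hp1]
        conv_lhs => rw [h']
        ring) hdet
  apply hB0
  rw [← degree_eq_bot]
  exact Nat.WithBot.lt_zero_iff.1 (by simpa using hBd)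

end Pool.Agent.Q267.SE
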