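import Pool.Agent.Q267.SE.Pair

/-!
A vector in the left kernel of the Hasse-Witt matrix of an eigenspace gives an exact form in the
opposite eigenspace.
-/

set_option autoImplicit false

open Polynomial

namespace Pool.Agent.Q267.SE

open Pool.Agent.Results.MP_2ca583_ag.HasseWittClassification (NoTop)

/-- the block of the Hasse-Witt matrix: the entry with indices `b`, `a` (from `0`) is the coefficient
of `x ^ (p (b + 1) - (a + 1))` in `f` -/
noncomputable def hw {R : Type*} [CommRing R] (p r : ℕ) (f : R[X]) : Matrix (Fin r) (Fin r) R :=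
  Matrix.of fun b a => (X ^ ((a : ℕ) + 1) * f).coeff (p * ((b : ℕ) + 1))

lemma noTop_derivative {R : Type*} [CommRing R] (p : ℕ) (hp : 1 ≤ p) [CharP R p] (P : R[X]) :
    NoTop p (derivative P) := by
  intro i
  have h1 : ((i * p + (p - 1) : ℕ) : R) + 1 = 0 := by
    have h2 : (i * p + (p - 1)) + 1 = (i + 1) * p := by rw [add_mul]; omega
    rw [← Nat.cast_succ, Nat.succ_eq_add_one, h2, Nat.cast_mul, CharP.cast_eq_zero R p, mul_zero]
  rw [coeff_derivative, h1, mul_zero]

section

variable {R : Type*} [CommRing R] [IsDomain R] (p : ℕ) [hp : Fact p.Prime] [CharP R p]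

/-- a polynomial with derivative zero and many multiple roots is zero -/
lemma eq_zero_of_derivative {J : Type*} [Fintype J] (z : J → R) (hz : Function.Injective z)
    (G : R[X]) (hG : derivative G = 0) (hr : ∀ j, G.eval (z j) = 0)
    (hd : G.natDegree < Fintype.card J * p) : G = 0 := by
  classical
  have hp0 : p ≠ 0 := hp.out.ne_zero
  have h1 := expand_contract p hG hp0
  obtain ⟨Q, hQ⟩ : ∃ Q, Q = contract p G := ⟨_, rfl⟩
  rw [← hQ] at h1
  have hinj : Function.Injective (fun a : R => a ^ p) := by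
    intro a b hab
    exact frobenius_inj R p (by simpa [frobenius_def] using hab)
  have hQ0 : Q = 0 := by
    by_contra hQne
    apply hQne
    apply eq_zero_of_natDegree_lt_card_of_eval_eq_zero' Q
      ((Finset.univ.image z).image (fun a => a ^ p))
    · intro b hb
      obtain ⟨a, ha, rfl⟩ := Finset.mem_image.1 hb
      obtain ⟨j, -, rfl⟩ := Finset.mem_image.1 ha
      have := hr j
      rwa [← h1, expand_eval] at this
    · rw [Finset.card_image_of_injective _ hinj, Finset.card_image_of_injective _ hz,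
        Finset.card_univ]
      rw [← h1, natDegree_expand] at hd
      exact lt_of_mul_lt_mul_right hd (Nat.zero_le p)
  rw [← h1, hQ0, map_zero]

omit [IsDomain R] in
lemma derivative_C_mul_X_pow_mul (c : R) (n : ℕ) : derivative (C c * X ^ (p * n)) = 0 := by
  rw [derivative_C_mul_X_pow]
  have : ((p * n : ℕ) : R) = 0 := by rw [Nat.cast_mul, CharP.cast_eq_zero R p, zero_mul]
  rw [this, mul_zero, C_0, zero_mul]

omit [IsDomain R] in
lemma derivative_fp_const {J : Type*} [Fintype J] (z : J → R) :
    derivative (fp z (fun _ => p)) = 0 := by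
  unfold fp
  rw [Finset.prod_pow, derivative_pow]
  simp

omit [IsDomain R] hp [CharP R p] in
/-- the derivative of `A ∏ (x - z j) ^ (e j + 1)` -/
lemma derivative_mul_fp {J : Type*} [Fintype J] (z : J → R) (e : J → ℕ) (A : R[X]) :
    ∃ B : R[X], derivative (A * fp z (fun j => e j + 1)) = fp z e * B := by
  classical
  refine ⟨derivative A * fp z (fun _ => 1) +
    A * ∑ j, ((e j : R[X]) + 1) * ∏ i ∈ Finset.univ.erase j, (X - C (z i)), ?_⟩
  have h1 : fp z (fun j => e j + 1) = fp z e * fp z (fun _ => 1) := by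
    unfold fp
    rw [← Finset.prod_mul_distrib]
    exact Finset.prod_congr rfl fun j _ => by rw [pow_succ, pow_one]
  have h2 : derivative (fp z (fun j => e j + 1)) =
      fp z e * ∑ j, ((e j : R[X]) + 1) * ∏ i ∈ Finset.univ.erase j, (X - C (z i)) := by
    conv_lhs => unfold fp
    rw [derivative_prod_finset, Finset.mul_sum]
    refine Finset.sum_congr rfl fun j _ => ?_
    rw [derivative_pow]
    simp only [derivative_sub, derivative_X, derivative_C, sub_zero, mul_one, Nat.add_sub_cancel]
    have h3 : fp z e = (∏ i ∈ Finset.univ.erase j, (X - C (z i)) ^ e i) * (X - C (z j)) ^ e j := by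
      unfold fp
      rw [Finset.prod_erase_mul _ _ (Finset.mem_univ j)]
    have h4 : (∏ i ∈ Finset.univ.erase j, (X - C (z i)) ^ (e i + 1)) =
        (∏ i ∈ Finset.univ.erase j, (X - C (z i)) ^ e i) *
          ∏ i ∈ Finset.univ.erase j, (X - C (z i)) := by
      rw [← Finset.prod_mul_distrib]
      exact Finset.prod_congr rfl fun i _ => by rw [pow_succ]
    rw [h3, h4]
    have h5 : (C ((e j + 1 : ℕ) : R) : R[X]) = (e j : R[X]) + 1 := by simp
    rw [h5]
    ring
  rw [derivative_mul, h2, h1]
  ring

end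

/-- Duality of opposite eigenspaces. -/
theorem dual {R : Type*} [CommRing R] [IsDomain R] (p : ℕ) [hp : Fact p.Prime] [CharP R p]
    {J : Type*} [Fintype J] (z : J → R) (hz : Function.Injective z) (e e' : J → ℕ)
    (he : ∀ j, e j + e' j + 1 = p) (r r' : ℕ) (hD : (p - 1) * r < ∑ j, e j)
    (hr : r + r' + 1 = Fintype.card J ∨
      (r + r' + 2 = Fintype.card J ∧ ∑ j, e j = (r + 1) * (p - 1)))
    (hdet : (hw p r (fp z e)).det = 0) :
    ∃ B : R[X], B ≠ 0 ∧ B.degree < r' ∧ NoTop p (B * fp z e') := by
  classical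
  obtain ⟨w, hw0, hw1⟩ := Matrix.exists_vecMul_eq_zero_iff.2 hdet
  have hp1 : 1 ≤ p := hp.out.one_le
  have hp2 : 2 ≤ p := hp.out.two_le
  set N := Fintype.card J with hN
  have hsum : (∑ j, e j) + (∑ j, e' j) + N = N * p := by
    have : ∑ j, (e j + e' j + 1) = N * p := by
      rw [Finset.sum_congr rfl fun j _ => he j]; simp [hN]
    rw [Finset.sum_add_distrib, Finset.sum_add_distrib] at this
    simpa using this
  obtain ⟨D, hDdef⟩ : ∃ D, D = ∑ j, e j := ⟨_, rfl⟩
  obtain ⟨D', hDdef'⟩ : ∃ D', D' = ∑ j, e' j := ⟨_, rfl⟩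
  rw [← hDdef] at hD hsum hr
  rw [← hDdef'] at hsum
  -- the polynomial in `x ^ p`
  obtain ⟨wt, hwt⟩ : ∃ wt : R[X], wt = ∑ b : Fin r, C (w b) * X ^ (p * (r - 1 - (b : ℕ))) :=
    ⟨_, rfl⟩
  have hwtd : derivative wt = 0 := by
    rw [hwt, derivative_sum]
    exact Finset.sum_eq_zero fun b _ => derivative_C_mul_X_pow_mul p _ _
  have hwt0 : wt ≠ 0 := by
    intro h0
    apply hw0
    funext b
    have h1 := congrArg (fun P => P.coeff (p * (r - 1 - (b : ℕ)))) h0
    simp only [coeff_zero, hwt, finsetSum_coeff, coeff_C_mul_X_pow] at h1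
    rw [Finset.sum_eq_single b] at h1
    · simpa using h1
    · intro b' _ hb
      rw [if_neg]
      intro h2
      apply hb
      have h3 := Nat.eq_of_mul_eq_mul_left (by omega : 0 < p) h2
      have := b.2
      have := b'.2
      exact Fin.ext (by omega)
    · intro h; exact absurd (Finset.mem_univ b) h
  have hr1 : 1 ≤ r := by
    by_contra hr0
    have : r = 0 := by omega
    subst this
    exact hw0 (funext fun b => b.elim0)
  have hwtdeg : wt.natDegree + p ≤ p * r := by
    have h1 : wt.natDegree ≤ p * (r - 1) := by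
      rw [hwt]
      refine natDegree_sum_le_of_forall_le _ _ fun b _ => ?_
      refine (natDegree_C_mul_X_pow_le _ _).trans (Nat.mul_le_mul_left p (by omega))
    obtain ⟨r0, rfl⟩ : ∃ r0, r = r0 + 1 := ⟨r - 1, by omega⟩
    rw [Nat.add_sub_cancel] at h1
    rw [mul_add, mul_one]
    omega
  obtain ⟨T, hT⟩ : ∃ T, T = wt * fp z e := ⟨_, rfl⟩
  have hTcoef : ∀ n, p * r ≤ n + r → n < p * r → T.coeff n = 0 := by
    intro n hn1 hn2
    obtain ⟨a, ha⟩ : ∃ a, n + (a + 1) = p * r := ⟨p * r - n - 1, by omega⟩
    have har : a < r := by omega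
    have h1 := congrFun hw1 ⟨a, har⟩
    rw [Matrix.vecMul, dotProduct] at h1
    rw [hT, hwt, Finset.sum_mul, finsetSum_coeff]
    rw [Pi.zero_apply] at h1
    rw [← h1]
    refine Finset.sum_congr rfl fun b _ => ?_
    rw [hw, Matrix.of_apply, mul_assoc, coeff_C_mul]
    congr 1
    rw [coeff_X_pow_mul', coeff_X_pow_mul']
    simp only
    have hb := b.2
    have e1 : p * (r - 1 - (b : ℕ)) + p * ((b : ℕ) + 1) = p * r := by
      rw [← mul_add]; congr 1; omega
    by_cases hc : a + 1 ≤ p * ((b : ℕ) + 1)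
    · rw [if_pos (by omega), if_pos hc]
      congr 1
      omega
    · rw [if_neg (by omega), if_neg hc]
  have hTd : derivative (T * fp z (fun j => e' j + 1)) = 0 := by
    have h1 : T * fp z (fun j => e' j + 1) = wt * fp z (fun _ => p) := by
      rw [hT, mul_assoc]
      congr 1
      unfold fp
      rw [← Finset.prod_mul_distrib]
      refine Finset.prod_congr rfl fun j _ => ?_
      rw [← pow_add]
      congr 1
      have := he j
      omega
    rw [h1, derivative_mul, hwtd, derivative_fp_const p z]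
    ring
  obtain ⟨A, hA⟩ : ∃ A, A = T /ₘ X ^ (p * r) := ⟨_, rfl⟩
  obtain ⟨S, hS⟩ : ∃ S, S = T %ₘ X ^ (p * r) := ⟨_, rfl⟩
  have hTAS : S + X ^ (p * r) * A = T := by
    rw [hA, hS]; exact modByMonic_add_div T (X ^ (p * r))
  have hSd : S.degree < (p * r : ℕ) := by
    have := degree_modByMonic_lt T (monic_X_pow (R := R) (p * r))
    rwa [← hS, degree_X_pow] at this
  have hScoef : ∀ n, p * r ≤ n + r → S.coeff n = 0 := by
    intro n hn
    by_cases h : n < p * r
    · have h1 := congrArg (fun P => P.coeff n) hTAS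
      simp only [coeff_add] at h1
      rw [coeff_X_pow_mul', if_neg (by omega), add_zero, hTcoef n hn h] at h1
      exact h1
    · exact (degree_lt_iff_coeff_zero _ _).1 hSd n (by omega)
  obtain ⟨B, hB⟩ := derivative_mul_fp z e' A
  have hpr : p * r = (p - 1) * r + r := by
    obtain ⟨q, hq⟩ : ∃ q, p = q + 1 := ⟨p - 1, by omega⟩
    rw [hq, Nat.add_sub_cancel]; ring
  -- `A ≠ 0`
  have hTdeg : T.natDegree = wt.natDegree + D := by
    rw [hT, mul_comm, (fp_monic z e).natDegree_mul' hwt0, fp_natDegree, ← hDdef, add_comm]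
  have hA0 : A ≠ 0 := by
    intro h0
    rw [h0, mul_zero, add_zero] at hTAS
    have h1 : T ≠ 0 := by
      rw [hT]; exact mul_ne_zero hwt0 (fp_monic z e).ne_zero
    have h2 := hScoef T.natDegree (by omega)
    rw [hTAS] at h2
    exact h1 (leadingCoeff_eq_zero.1 h2)
  have hAdeg : A.natDegree + p ≤ D := by
    have h1 : A.natDegree = T.natDegree - p * r := by
      rw [hA, natDegree_divByMonic T (monic_X_pow _), natDegree_X_pow]
    have h2 : (p - 1) * 1 ≤ (p - 1) * r := Nat.mul_le_mul_left _ hr1
    omega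
  -- `B ≠ 0`
  have hB0 : B ≠ 0 := by
    intro h0
    rw [h0, mul_zero] at hB
    have h1 : (A * fp z (fun j => e' j + 1)).natDegree < N * p := by
      refine lt_of_le_of_lt natDegree_mul_le ?_
      have h2 := fp_natDegree_le z (fun j => e' j + 1)
      have h3 : ∑ j, (e' j + 1) = D' + N := by
        rw [Finset.sum_add_distrib, ← hDdef']; simp [hN]
      omega
    have h2 := eq_zero_of_derivative p z hz _ hB (fun j => by
      rw [eval_mul]
      have : (fp z (fun j => e' j + 1)).eval (z j) = 0 := by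
        unfold fp
        rw [eval_prod, Finset.prod_eq_zero (Finset.mem_univ j)]
        simp
      rw [this, mul_zero]) h1
    exact mul_ne_zero hA0 (fp_monic z _).ne_zero h2
  -- the degree of `B`
  have hXd : derivative (X ^ (p * r) : R[X]) = 0 := by
    have := derivative_C_mul_X_pow_mul (R := R) p 1 r
    rwa [C_1, one_mul] at this
  have hkey : X ^ (p * r) * (fp z e' * B) = -derivative (S * fp z (fun j => e' j + 1)) := by
    have h1 : derivative (X ^ (p * r) * (A * fp z (fun j => e' j + 1)))
        = X ^ (p * r) * (fp z e' * B) := by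
      rw [derivative_mul, hXd, hB]; ring
    have h2 : X ^ (p * r) * (A * fp z (fun j => e' j + 1)) =
        T * fp z (fun j => e' j + 1) - S * fp z (fun j => e' j + 1) := by
      rw [← hTAS]; ring
    rw [← h1, h2, derivative_sub, hTd, zero_sub]
  have hfB0 : X ^ (p * r) * (fp z e' * B) ≠ 0 :=
    mul_ne_zero (pow_ne_zero _ X_ne_zero) (mul_ne_zero (fp_monic z e').ne_zero hB0)
  have hdeg1 : (X ^ (p * r) * (fp z e' * B)).natDegree = p * r + (D' + B.natDegree) := by
    rw [(monic_X_pow (p * r)).natDegree_mul' (mul_ne_zero (fp_monic z e').ne_zero hB0),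
      natDegree_X_pow, (fp_monic z e').natDegree_mul' hB0, fp_natDegree, ← hDdef']
  have hYcoef : ∀ n, p * r + (D' + N) ≤ n + r → (S * fp z (fun j => e' j + 1)).coeff n = 0 := by
    intro n hn
    rw [coeff_mul]
    apply Finset.sum_eq_zero
    rintro ⟨i, i'⟩ hij
    rw [Finset.HasAntidiagonal.mem_antidiagonal] at hij
    simp only at hij ⊢
    have h3 : ∑ j, (e' j + 1) = D' + N := by
      rw [Finset.sum_add_distrib, ← hDdef']; simp [hN]
    by_cases hi : i' ≤ D' + N
    · rw [hScoef i (by omega), zero_mul]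
    · have h2 := fp_natDegree_le z (fun j => e' j + 1)
      rw [coeff_eq_zero_of_natDegree_lt (p := fp z (fun j => e' j + 1)) (n := i') (by omega),
        mul_zero]
  have hlead : derivative (S * fp z (fun j => e' j + 1)) ≠ 0 := by
    intro h0
    rw [h0, neg_zero] at hkey
    exact hfB0 hkey
  have hdeg2 : (derivative (S * fp z (fun j => e' j + 1))).natDegree
      = p * r + (D' + B.natDegree) := by
    rw [← hdeg1, hkey, natDegree_neg]
  have hlc : (derivative (S * fp z (fun j => e' j + 1))).coeff (p * r + (D' + B.natDegree)) ≠ 0 := by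
    rw [← hdeg2]
    exact fun h => hlead (leadingCoeff_eq_zero.1 h)
  rw [coeff_derivative] at hlc
  have hlt : p * r + (D' + B.natDegree) + 1 + r < p * r + (D' + N) := by
    by_contra hcon
    exact hlc (by rw [hYcoef _ (by omega), zero_mul])
  refine ⟨B, hB0, ?_, ?_⟩
  · rw [← natDegree_lt_iff_degree_lt hB0]
    rcases hr with hr | ⟨hr, hDr⟩
    · omega
    · by_contra hcon
      have h1 : B.natDegree = r' := by omega
      apply hlc
      have h2 : ((p * r + (D' + B.natDegree) : ℕ) : R) + 1 = 0 := by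
        have h3 : (p * r + (D' + B.natDegree)) + 1 = p * (N - 1) := by
          rw [h1]
          have h4 : D = (p - 1) * r + (p - 1) := by rw [hDr]; ring
          have h5 : p * (N - 1) + p = N * p := by
            obtain ⟨N0, hN0⟩ : ∃ N0, N = N0 + 1 := ⟨N - 1, by omega⟩
            rw [hN0, Nat.add_sub_cancel]; ring
          omega
        rw [← Nat.cast_succ, Nat.succ_eq_add_one, h3, Nat.cast_mul, CharP.cast_eq_zero R p,
          zero_mul]
      rw [h2, mul_zero]
  · rw [mul_comm, ← hB]
    exact noTop_derivative p hp1 _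

end Pool.Agent.Q267.SE
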