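import Pool.Agent.Q267.SE.Dual

/-!
The Hasse-Witt matrix of an eigenspace is invertible if one branch point moves.
-/

set_option autoImplicit false

open Polynomial

namespace Pool.Agent.Q267.SE

open Pool.Agent.Results.MP_2ca583_ag.HasseWittClassification (NoTop natCast_ne_zero_of_lt
  degree_sum_lt coeff_sum_fin)

section

variable {R : Type*} [CommRing R] (δ : R →+ R)

/-- coefficientwise application of an additive map -/
noncomputable def Dc (P : R[X]) : R[X] := P.sum fun n a => monomial n (δ a)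

lemma coeff_Dc (P : R[X]) (n : ℕ) : (Dc δ P).coeff n = δ (P.coeff n) := by
  unfold Dc
  rw [Polynomial.sum_def, finsetSum_coeff]
  simp only [coeff_monomial]
  rw [Finset.sum_ite_eq']
  split_ifs with h
  · rfl
  · rw [notMem_support_iff.1 h, map_zero]

lemma Dc_sub (P Q : R[X]) : Dc δ (P - Q) = Dc δ P - Dc δ Q := by
  ext n
  rw [coeff_Dc, coeff_sub, coeff_sub, coeff_Dc, coeff_Dc, map_sub]

lemma Dc_C (a : R) : Dc δ (C a) = C (δ a) := by
  ext n
  rw [coeff_Dc, coeff_C, coeff_C]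
  split_ifs <;> simp

lemma degree_Dc_le (P : R[X]) : (Dc δ P).degree ≤ P.degree := by
  rw [degree_le_iff_coeff_zero]
  intro n hn
  rw [coeff_Dc, coeff_eq_zero_of_degree_lt hn, map_zero]

lemma noTop_Dc (p : ℕ) (P : R[X]) (hP : NoTop p P) : NoTop p (Dc δ P) := by
  intro i
  rw [coeff_Dc, hP i, map_zero]

variable (hδ : ∀ a b, δ (a * b) = a * δ b + b * δ a)

include hδ

lemma Dc_one : δ 1 = 0 := by
  have := hδ 1 1
  simpa using this

lemma Dc_mul (P Q : R[X]) : Dc δ (P * Q) = P * Dc δ Q + Q * Dc δ P := by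
  ext n
  rw [coeff_Dc, coeff_add, coeff_mul, coeff_mul, mul_comm Q, coeff_mul, map_sum,
    ← Finset.sum_add_distrib]
  refine Finset.sum_congr rfl fun x _ => ?_
  rw [hδ, coeff_Dc, coeff_Dc]
  ring

lemma Dc_X : Dc δ (X : R[X]) = 0 := by
  ext n
  rw [coeff_Dc, coeff_X, coeff_zero]
  split_ifs
  · exact Dc_one δ hδ
  · exact map_zero δ

lemma Dc_pow (P : R[X]) (n : ℕ) : Dc δ (P ^ n) = (n : R[X]) * P ^ (n - 1) * Dc δ P := by
  induction n with
  | zero =>
    have : (1 : R[X]) = C 1 := C_1.symm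
    rw [pow_zero, this, Dc_C, Dc_one δ hδ]; simp
  | succ m ih =>
    rw [pow_succ, Dc_mul δ hδ, ih]
    rcases m with _ | m
    · simp
    · simp only [Nat.add_sub_cancel]; push_cast; ring

lemma Dc_fp {J : Type*} [Fintype J] (z : J → R) (e : J → ℕ) (hz : ∀ j, δ (z j) = 0) :
    Dc δ (fp z e) = 0 := by
  classical
  unfold fp
  have : ∀ s : Finset J, Dc δ (∏ j ∈ s, (X - C (z j)) ^ e j) = 0 := by
    intro s
    induction s using Finset.induction_on with
    | empty =>
      have : (1 : R[X]) = C 1 := C_1.symm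
      rw [Finset.prod_empty, this, Dc_C, Dc_one δ hδ, C_0]
    | insert a s ha ih =>
      rw [Finset.prod_insert ha, Dc_mul δ hδ, ih, Dc_pow δ hδ, Dc_sub, Dc_X δ hδ, Dc_C, hz]
      simp
  exact this Finset.univ

/-- the `t`-derivative of `U (x - t) ^ a h` -/
lemma Dc_fam (t : R) (ht : δ t = 1) (h : R[X]) (hh : Dc δ h = 0) (U : R[X]) (a : ℕ)
    (ha : 1 ≤ a) : Dc δ (U * ((X - C t) ^ a * h)) =
      (X - C t) ^ (a - 1) * h * ((X - C t) * Dc δ U - C (a : R) * U) := by
  obtain ⟨b, rfl⟩ : ∃ b, a = b + 1 := ⟨a - 1, by omega⟩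
  rw [Dc_mul δ hδ, Dc_mul δ hδ, hh, Dc_pow δ hδ, Dc_sub, Dc_X δ hδ, Dc_C, ht, C_1]
  simp only [Nat.add_sub_cancel]
  have h2 : (C ((b + 1 : ℕ) : R) : R[X]) = ((b + 1 : ℕ) : R[X]) := by simp
  rw [h2, pow_succ]
  ring

end

/-- If all the elements of the kernel vanish at `x = t` then the kernel is zero. -/
lemma pow_dvd_of_eval {R : Type*} [CommRing R] [IsDomain R] (p : ℕ) [hp : Fact p.Prime]
    [CharP R p] (δ : R →+ R) (hδ : ∀ a b, δ (a * b) = a * δ b + b * δ a) (t : R) (ht : δ t = 1)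
    (h : R[X]) (hh : Dc δ h = 0) (a : ℕ) (ha1 : 1 ≤ a) (hap : a < p) (r : ℕ)
    (hker : ∀ U : R[X], U.degree < r → NoTop p (U * ((X - C t) ^ a * h)) → U.eval t = 0)
    (m : ℕ) (hm : m + a ≤ p) :
    ∀ U : R[X], U.degree < r → NoTop p (U * ((X - C t) ^ a * h)) → (X - C t) ^ m ∣ U := by
  have hL0 : (X - C t : R[X]) ≠ 0 := X_sub_C_ne_zero t
  have hLmonic : (X - C t : R[X]).Monic := monic_X_sub_C t
  have hDL : Dc δ (X - C t : R[X]) = -1 := by
    rw [Dc_sub, Dc_X δ hδ, Dc_C, ht, C_1, zero_sub]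
  induction m with
  | zero => intro U _ _; simp
  | succ m ih =>
    intro U hU hU'
    rcases Nat.eq_zero_or_pos m with rfl | hmpos
    · rw [zero_add, pow_one]
      rw [dvd_iff_isRoot, IsRoot.def]
      exact hker U hU hU'
    · obtain ⟨W, hW⟩ := ih (by omega) U hU hU'
      obtain ⟨m', rfl⟩ : ∃ m', m = m' + 1 := ⟨m - 1, by omega⟩
      obtain ⟨W1, hW1⟩ : ∃ W1, W1 = (X - C t) ^ m' * W := ⟨_, rfl⟩
      have hUW1 : U = (X - C t) * W1 := by rw [hW, hW1]; ring
      obtain ⟨V, hV⟩ : ∃ V, V = Dc δ U - C (a : R) * W1 := ⟨_, rfl⟩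
      have hVdeg : V.degree < r := by
        have e1 : W1.degree < r := by
          refine lt_of_le_of_lt ?_ hU
          rw [hUW1, hLmonic.degree_mul_comm, hLmonic.degree_mul, degree_X_sub_C]
          exact le_add_of_nonneg_right (by norm_num)
        rw [hV]
        refine lt_of_le_of_lt (degree_sub_le _ _) (max_lt ?_ ?_)
        · exact lt_of_le_of_lt (degree_Dc_le δ U) hU
        · exact lt_of_le_of_lt ((degree_mul_le _ _).trans (add_le_of_nonpos_left degree_C_le)) e1
      have hVtop : NoTop p (V * ((X - C t) ^ a * h)) := by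
        have e1 := noTop_Dc δ p _ hU'
        rw [Dc_fam δ hδ t ht h hh U a ha1] at e1
        have e2 : (X - C t) ^ (a - 1) * h * ((X - C t) * Dc δ U - C (a : R) * U)
            = V * ((X - C t) ^ a * h) := by
          obtain ⟨b, rfl⟩ : ∃ b, a = b + 1 := ⟨a - 1, by omega⟩
          rw [hV, pow_succ, Nat.add_sub_cancel]
          nth_rewrite 2 [hUW1]
          ring
        rwa [e2] at e1
      have hdvd := ih (by omega) V hVdeg hVtop
      have hVeq : V = (X - C t) ^ m' * ((X - C t) * Dc δ W - C ((m' + 1 + a : ℕ) : R) * W) := by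
        rw [hV, hW1, hW, Dc_mul δ hδ, Dc_pow δ hδ, hDL]
        simp only [Nat.add_sub_cancel]
        have e4 : (C ((m' + 1 + a : ℕ) : R) : R[X]) = ((m' + 1 + a : ℕ) : R[X]) := by simp
        have e5 : (C (a : R) : R[X]) = (a : R[X]) := by simp
        rw [e4, e5]
        push_cast
        ring
      rw [hVeq, pow_succ, mul_dvd_mul_iff_left (pow_ne_zero _ hL0)] at hdvd
      have hdvd2 : (X - C t) ∣ C ((m' + 1 + a : ℕ) : R) * W :=
        (dvd_sub_right (dvd_mul_right (X - C t) (Dc δ W))).1 hdvd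
      have hne : ((m' + 1 + a : ℕ) : R) ≠ 0 := by
        intro h0
        rw [CharP.cast_eq_zero_iff R p] at h0
        have := Nat.le_of_dvd (by omega) h0
        omega
      have hdvd3 : (X - C t) ∣ W := by
        rw [dvd_iff_isRoot, IsRoot.def] at hdvd2 ⊢
        rw [eval_mul, eval_C] at hdvd2
        exact (mul_eq_zero.1 hdvd2).resolve_left hne
      rw [hW, pow_succ]
      exact mul_dvd_mul_left _ hdvd3

lemma eq_zero_of_eval {R : Type*} [CommRing R] [IsDomain R] (p : ℕ) [hp : Fact p.Prime]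
    [CharP R p] (δ : R →+ R) (hδ : ∀ a b, δ (a * b) = a * δ b + b * δ a) (t : R) (ht : δ t = 1)
    (h : R[X]) (hh : Dc δ h = 0) (a : ℕ) (ha1 : 1 ≤ a) (r : ℕ) (hr : r + a ≤ p)
    (hr1 : 1 ≤ r)
    (hker : ∀ U : R[X], U.degree < r → NoTop p (U * ((X - C t) ^ a * h)) → U.eval t = 0)
    (U : R[X]) (hU : U.degree < r) (hU' : NoTop p (U * ((X - C t) ^ a * h))) : U = 0 := by
  by_contra hne
  have h1 := pow_dvd_of_eval p δ hδ t ht h hh a ha1 (by omega) r hker r hr U hU hU'
  have h2 := degree_le_of_dvd h1 hne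
  rw [degree_pow, degree_X_sub_C, nsmul_one] at h2
  exact absurd (lt_of_le_of_lt h2 hU) (lt_irrefl _)

/-- the right kernel of the Hasse-Witt matrix -/
lemma noTop_of_mulVec {R : Type*} [CommRing R] (p r D : ℕ) (hp : 1 ≤ p) (f : R[X])
    (hf : f.natDegree ≤ D) (hD : D + r < p * (r + 1)) (u : Fin r → R)
    (h : (hw p r f).mulVec u = 0) : NoTop p ((∑ j : Fin r, C (u j) * X ^ (j : ℕ)) * f) := by
  intro i
  rcases Nat.eq_zero_or_pos r with rfl | hr0
  · simp
  have e0 : (i + 1) * p = i * p + (p - 1) + 1 := by rw [add_mul]; omega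
  by_cases hi : i < r
  · have h1 := congrFun h ⟨i, hi⟩
    rw [Matrix.mulVec, dotProduct, Pi.zero_apply] at h1
    rw [Finset.sum_mul, finsetSum_coeff, ← h1]
    refine Finset.sum_congr rfl fun j _ => ?_
    rw [hw, Matrix.of_apply]
    have e2 : (X ^ ((j : ℕ) + 1) * f : R[X]) = X * (X ^ (j : ℕ) * f) := by ring
    have e3 : p * (((⟨i, hi⟩ : Fin r) : ℕ) + 1) = i * p + (p - 1) + 1 := by
      rw [← e0, mul_comm]
    rw [e2, e3, coeff_X_mul, mul_assoc, coeff_C_mul, mul_comm]
  · apply coeff_eq_zero_of_natDegree_lt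
    have h1 : (∑ j : Fin r, C (u j) * X ^ (j : ℕ) : R[X]).natDegree ≤ r - 1 := by
      rw [natDegree_le_iff_coeff_eq_zero]
      intro n hn
      exact (degree_lt_iff_coeff_zero _ _).1 (degree_sum_lt r u) n (by omega)
    have h3 := (natDegree_mul_le (p := (∑ j : Fin r, C (u j) * X ^ (j : ℕ) : R[X])) (q := f))
    have h4 : (r + 1) * p ≤ (i + 1) * p := Nat.mul_le_mul_right p (by omega)
    have h5 : p * (r + 1) = (r + 1) * p := mul_comm _ _
    omega

/-- **The generic member of the family is ordinary.** -/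
theorem generic {R : Type*} [CommRing R] [IsDomain R] (p : ℕ) [hp : Fact p.Prime] [CharP R p]
    (δ : R →+ R) (hδ : ∀ a b, δ (a * b) = a * δ b + b * δ a) {J : Type*} [Fintype J]
    (z : J → R) (hz : Function.Injective z) (hzδ : ∀ j, δ (z j) = 0) (t : R) (ht : δ t = 1)
    (e e' : J → ℕ) (he : ∀ j, e j + e' j + 1 = p) (a a' : ℕ) (ha : a + a' + 1 = p)
    (ha1 : 1 ≤ a) (ha1' : 1 ≤ a') (r r' : ℕ)
    (h1 : a + (∑ j, e j) + r < p * (r + 1)) (h2 : (p - 1) * r < a + ∑ j, e j)
    (h3 : r + r' = Fintype.card J ∨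
      (r + r' + 1 = Fintype.card J ∧ a + ∑ j, e j = (r + 1) * (p - 1)))
    (h4 : r + a ≤ p) (h5 : r' + a' ≤ p) :
    (hw p r ((X - C t) ^ a * fp z e)).det ≠ 0 := by
  classical
  intro hdet
  -- the points do not equal `t`
  have hzt : ∀ j, z j ≠ t := by
    intro j h0
    have h6 := hzδ j
    rw [h0, ht] at h6
    exact one_ne_zero h6
  -- the left kernel
  have hB : ∃ B : R[X], B ≠ 0 ∧ B.degree < r' ∧ NoTop p (B * ((X - C t) ^ a' * fp z e')) := by
    have hf : ∀ (b : ℕ) (f : J → ℕ), fp (fun o : Option J => o.elim t z) (fun o => o.elim b f)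
        = (X - C t) ^ b * fp z f := by
      intro b f
      unfold fp
      rw [Fintype.prod_option]
      rfl
    have hinj : Function.Injective (fun o : Option J => o.elim t z) := by
      intro o o' h0
      rcases o with _ | o <;> rcases o' with _ | o'
      · rfl
      · exact absurd h0.symm (hzt o')
      · exact absurd h0 (hzt o)
      · exact congrArg some (hz h0)
    have h := dual p (fun o : Option J => o.elim t z) hinj (fun o => o.elim a e)
      (fun o => o.elim a' e') (by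
        intro o
        rcases o with _ | o
        · exact ha
        · exact he o) r r' (by
        rw [Fintype.sum_option]; exact h2) (by
        rw [Fintype.sum_option, Fintype.card_option]
        rcases h3 with h3 | ⟨h3, h3'⟩
        · exact Or.inl (by omega)
        · exact Or.inr ⟨by omega, h3'⟩) (by rw [hf]; exact hdet)
    rwa [hf] at h
  obtain ⟨B, hB0, hBd, hB⟩ := hB
  have hr1' : 1 ≤ r' := by
    by_contra h0
    have : r' = 0 := by omega
    rw [this] at hBd
    apply hB0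
    rw [← degree_eq_bot]
    exact Nat.WithBot.lt_zero_iff.1 (by simpa using hBd)
  -- the right kernel
  obtain ⟨u, hu0, hu⟩ := Matrix.exists_mulVec_eq_zero_iff.2 hdet
  have hr1 : 1 ≤ r := by
    by_contra hr0
    have : r = 0 := by omega
    subst this
    exact hu0 (funext fun b => b.elim0)
  have hUtop := noTop_of_mulVec p r (a + ∑ j, e j) hp.out.one_le _ (by
    refine natDegree_mul_le.trans ?_
    have e1 := fp_natDegree_le z e
    have e2 : ((X - C t) ^ a : R[X]).natDegree ≤ a := by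
      rw [natDegree_pow, natDegree_X_sub_C, mul_one]
    omega) h1 u hu
  obtain ⟨U, hU⟩ : ∃ U : R[X], U = ∑ j : Fin r, C (u j) * X ^ (j : ℕ) := ⟨_, rfl⟩
  have hUd : U.degree < r := by rw [hU]; exact degree_sum_lt r u
  rw [← hU] at hUtop
  have hU0 : U ≠ 0 := by
    intro h0
    apply hu0
    funext j
    have := coeff_sum_fin r u j
    rw [← hU, h0, coeff_zero] at this
    exact this.symm
  -- elements of the kernels which do not vanish at `t`
  have hw1 : ∃ U : R[X], U.degree < r ∧ NoTop p (U * ((X - C t) ^ a * fp z e)) ∧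
      U.eval t ≠ 0 := by
    by_contra hcon
    push Not at hcon
    exact hU0 (eq_zero_of_eval p δ hδ t ht _ (Dc_fp δ hδ z e hzδ) a ha1 r h4 hr1
      (fun V hV hV' => hcon V hV hV') U hUd hUtop)
  have hw2 : ∃ B : R[X], B.degree < r' ∧ NoTop p (B * ((X - C t) ^ a' * fp z e')) ∧
      B.eval t ≠ 0 := by
    by_contra hcon
    push Not at hcon
    exact hB0 (eq_zero_of_eval p δ hδ t ht _ (Dc_fp δ hδ z e' hzδ) a' ha1' r' h5 hr1'
      (fun V hV hV' => hcon V hV hV') B hBd hB)
  obtain ⟨U1, hU1d, hU1, hU1t⟩ := hw1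
  obtain ⟨B1, hB1d, hB1, hB1t⟩ := hw2
  -- over the field of fractions
  let K := FractionRing R
  let φ : R →+* K := algebraMap R K
  have hφ : Function.Injective φ := IsFractionRing.injective R K
  have : CharP K p := charP_of_injective_algebraMap hφ p
  have hmapT : ∀ P : R[X], NoTop p P → NoTop p (P.map φ) := by
    intro P hP i
    rw [coeff_map, hP i, map_zero]
  have e1 := hmapT _ hU1
  rw [Polynomial.map_mul, Polynomial.map_mul, Polynomial.map_pow, Polynomial.map_sub, map_X,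
    map_C, fp_map] at e1
  have e2 := hmapT _ (noTop_Dc δ p _ hB1)
  rw [Dc_fam δ hδ t ht _ (Dc_fp δ hδ z e' hzδ) B1 a' ha1'] at e2
  rw [Polynomial.map_mul, Polynomial.map_mul, Polynomial.map_pow, Polynomial.map_sub,
    Polynomial.map_sub, Polynomial.map_mul, Polynomial.map_mul, Polynomial.map_sub, map_X,
    map_C, map_C, map_natCast, fp_map] at e2
  have h6 := pairing p (fun j => φ (z j)) (hφ.comp hz) (φ t) (fun j h => hzt j (hφ h)) e e' he a
    a' ha ha1' r r' (by rcases h3 with h3 | ⟨h3, -⟩ <;> omega) (U1.map φ) ((Dc δ B1).map φ)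
    (B1.map φ) (lt_of_le_of_lt degree_map_le hU1d)
    (lt_of_le_of_lt degree_map_le (lt_of_le_of_lt (degree_Dc_le δ B1) hB1d))
    (lt_of_le_of_lt degree_map_le hB1d) e1 e2
  rw [eval_map_apply, eval_map_apply, ← map_mul, map_eq_zero_iff φ hφ] at h6
  exact (mul_ne_zero hU1t hB1t) h6

end Pool.Agent.Q267.SE
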