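import Mathlib

/-!
Coefficients of powers of sums of forms in disjoint sets of variables.
-/

set_option autoImplicit false

open MvPolynomial

namespace Pool.Agent.Q267.SE

section

variable {R V : Type*} [CommRing R]

/-- `P` involves only the variables in `S`. -/
def Sup (S : Set V) (P : MvPolynomial V R) : Prop := ∀ e, coeff e P ≠ 0 → ∀ v, v ∉ S → e v = 0

lemma Sup.mul {S : Set V} {P Q : MvPolynomial V R} (hP : Sup S P) (hQ : Sup S Q) :
    Sup S (P * Q) := by
  classical
  intro e he v hv
  rw [coeff_mul] at he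
  obtain ⟨x, hx, hx0⟩ := Finset.exists_ne_zero_of_sum_ne_zero he
  rw [Finset.HasAntidiagonal.mem_antidiagonal] at hx
  have h1 := hP x.1 (left_ne_zero_of_mul hx0) v hv
  have h2 := hQ x.2 (right_ne_zero_of_mul hx0) v hv
  rw [← hx, Finsupp.add_apply, h1, h2]

lemma Sup.one {S : Set V} : Sup S (1 : MvPolynomial V R) := by
  classical
  intro e he v _
  rw [coeff_one] at he
  by_cases h : 0 = e
  · rw [← h]; rfl
  · rw [if_neg h] at he; exact absurd rfl he

lemma Sup.pow {S : Set V} {P : MvPolynomial V R} (hP : Sup S P) (n : ℕ) : Sup S (P ^ n) := by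
  induction n with
  | zero => rw [pow_zero]; exact Sup.one
  | succ n ih => rw [pow_succ]; exact ih.mul hP

lemma Sup.mono {S T : Set V} {P : MvPolynomial V R} (hP : Sup S P) (h : S ⊆ T) : Sup T P :=
  fun e he v hv => hP e he v fun hvS => hv (h hvS)

lemma Sup.prod {Γ : Type*} {S : Set V} (s : Finset Γ) (Q : Γ → MvPolynomial V R)
    (h : ∀ g ∈ s, Sup S (Q g)) : Sup S (∏ g ∈ s, Q g) := by
  classical
  induction s using Finset.induction_on with
  | empty => rw [Finset.prod_empty]; exact Sup.one
  | insert a s ha ih =>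
    rw [Finset.prod_insert ha]
    exact (h a (Finset.mem_insert_self a s)).mul
      (ih fun g hg => h g (Finset.mem_insert_of_mem hg))

lemma coeff_mul_of_sup (S : Set V) [DecidablePred (· ∈ S)] (P Q : MvPolynomial V R)
    (hP : Sup S P) (hQ : Sup Sᶜ Q) (e : V →₀ ℕ) :
    coeff e (P * Q) = coeff (e.filter (· ∈ S)) P * coeff (e.filter (· ∉ S)) Q := by
  classical
  rw [coeff_mul, Finset.sum_eq_single (e.filter (· ∈ S), e.filter (· ∉ S))]
  · rintro ⟨a, b⟩ hab hne
    rw [Finset.HasAntidiagonal.mem_antidiagonal] at hab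
    simp only at hab ⊢
    by_contra h
    apply hne
    have h1 := hP a (left_ne_zero_of_mul h)
    have h2 := hQ b (right_ne_zero_of_mul h)
    have h3 : a = e.filter (· ∈ S) := by
      ext v
      rw [← hab]
      by_cases hv : v ∈ S
      · rw [Finsupp.filter_apply, if_pos hv, Finsupp.add_apply, h2 v (fun h => h hv), add_zero]
      · rw [Finsupp.filter_apply, if_neg hv, h1 v hv]
    have h4 : b = e.filter (· ∉ S) := by
      ext v
      rw [← hab]
      by_cases hv : v ∈ S
      · rw [Finsupp.filter_apply, if_neg (fun h => h hv), h2 v (fun h => h hv)]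
      · rw [Finsupp.filter_apply, if_pos hv, Finsupp.add_apply, h1 v hv, zero_add]
    rw [h3, h4]
  · intro h
    exact absurd (Finset.HasAntidiagonal.mem_antidiagonal.2
      (Finsupp.filter_add_filter_not e (· ∈ S))) h

lemma coeff_prod_of_sup {Γ : Type*} [DecidableEq Γ] (ρ : V → Γ) (Q : Γ → MvPolynomial V R)
    (hQ : ∀ g, Sup {v | ρ v = g} (Q g)) (s : Finset Γ) (e : V →₀ ℕ) :
    coeff (e.filter (fun v => ρ v ∈ s)) (∏ g ∈ s, Q g) =
      ∏ g ∈ s, coeff (e.filter (fun v => ρ v = g)) (Q g) := by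
  induction s using Finset.induction_on with
  | empty =>
    have : e.filter (fun v => ρ v ∈ (∅ : Finset Γ)) = 0 := by
      rw [Finsupp.filter_eq_zero_iff]
      intro v hv
      exact absurd hv (Finset.notMem_empty _)
    rw [this, Finset.prod_empty, Finset.prod_empty, coeff_zero_one]
  | insert g s hg ih =>
    rw [Finset.prod_insert hg, Finset.prod_insert hg]
    have h1 := coeff_mul_of_sup {v | ρ v = g} (Q g) (∏ g ∈ s, Q g) (hQ g)
      (Sup.prod s Q fun g' hg' => (hQ g').mono fun v hv hv' => hg (by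
        have e1 : ρ v = g' := hv
        have e2 : ρ v = g := hv'
        rw [← e2, e1]; exact hg')) (e.filter (fun v => ρ v ∈ insert g s))
    rw [h1, ← ih]
    congr 2
    · ext v
      simp only [Finsupp.filter_apply, Set.mem_setOf_eq, Finset.mem_insert]
      by_cases hv : ρ v = g
      · rw [if_pos hv, if_pos (Or.inl hv), if_pos hv]
      · rw [if_neg hv, if_neg hv]
    · ext v
      simp only [Finsupp.filter_apply, Set.mem_setOf_eq, Finset.mem_insert]
      by_cases hv : ρ v = g
      · rw [if_neg (fun h => h hv), if_neg (by rw [hv]; exact hg)]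
      · rw [if_pos hv]
        by_cases hs : ρ v ∈ s
        · rw [if_pos (Or.inr hs), if_pos hs]
        · rw [if_neg (fun h => h.elim hv hs), if_neg hs]

/-- the multinomial theorem for forms in disjoint sets of variables -/
lemma coeff_sum_pow {Γ : Type*} [DecidableEq Γ] [Fintype Γ] (ρ : V → Γ)
    (Q : Γ → MvPolynomial V R) (hQ : ∀ g, Sup {v | ρ v = g} (Q g)) (n : ℕ) (e : V →₀ ℕ) :
    coeff e ((∑ g, Q g) ^ n) = ∑ k ∈ Finset.piAntidiag Finset.univ n,
      (Nat.multinomial Finset.univ k : R) *
        ∏ g, coeff (e.filter (fun v => ρ v = g)) (Q g ^ k g) := by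
  classical
  rw [Finset.sum_pow_eq_sum_piAntidiag, coeff_sum]
  refine Finset.sum_congr rfl fun k _ => ?_
  have h0 : ((Nat.multinomial Finset.univ k : ℕ) : MvPolynomial V R) =
      C ((Nat.multinomial Finset.univ k : ℕ) : R) := by simp
  rw [h0, coeff_C_mul]
  congr 1
  have h1 := coeff_prod_of_sup ρ (fun g => Q g ^ k g) (fun g => (hQ g).pow _) Finset.univ e
  rw [← h1]
  congr 1
  ext v
  rw [Finsupp.filter_apply, if_pos (Finset.mem_univ _)]

end

section

variable {R : Type*} [CommRing R]

lemma homogenize_pow (m : ℕ) (F : Polynomial R) (hF : F.natDegree ≤ m) (k : ℕ) :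
    (F.homogenize m) ^ k = (F ^ k).homogenize (m * k) := by
  have := Polynomial.homogenize_finsetProd (s := Finset.range k) (p := fun _ => F)
    (n := fun _ => m) (fun _ _ => hF)
  rw [Finset.prod_const, Finset.prod_const, Finset.sum_const, Finset.card_range,
    smul_eq_mul] at this
  rw [← this, mul_comm]

variable {κ μ : Type*} (dd : κ ⊕ μ → ℕ)

/-- the binary forms and monomials of degrees `dd` -/
noncomputable def grp (F : κ → Polynomial R) (b : μ → R) :
    κ ⊕ μ → MvPolynomial ((κ × Fin 2) ⊕ μ) R :=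
  Sum.elim (fun c => rename (fun s : Fin 2 => Sum.inl (c, s)) ((F c).homogenize (dd (Sum.inl c))))
    (fun d => C (b d) * X (Sum.inr d) ^ dd (Sum.inr d))

/-- the group of a variable -/
def gr : (κ × Fin 2) ⊕ μ → κ ⊕ μ := Sum.map Prod.fst id

lemma inl_inj (c : κ) : Function.Injective (fun s : Fin 2 => (Sum.inl (c, s) : (κ × Fin 2) ⊕ μ)) :=
  fun s s' h => by simpa using h

lemma sup_grp (F : κ → Polynomial R) (b : μ → R) (g : κ ⊕ μ) :
    Sup {v | gr v = g} (grp dd F b g) := by
  classical
  intro e he v hv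
  rcases g with c | d
  · change coeff e (rename (fun s : Fin 2 => Sum.inl (c, s))
      ((F c).homogenize (dd (Sum.inl c)))) ≠ 0 at he
    obtain ⟨u, rfl, -⟩ := coeff_rename_ne_zero _ _ _ he
    apply Finsupp.mapDomain_of_notMem_range
    rintro ⟨s, rfl⟩
    exact hv rfl
  · change coeff e (C (b d) * X (Sum.inr d) ^ dd (Sum.inr d)) ≠ 0 at he
    rw [coeff_C_mul, coeff_X_pow] at he
    have h1 : Finsupp.single (Sum.inr d) (dd (Sum.inr d)) = e := by
      by_contra h
      rw [if_neg h, mul_zero] at he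
      exact he rfl
    rw [← h1, Finsupp.single_apply, if_neg]
    rintro rfl
    exact hv rfl

variable [DecidableEq κ] [DecidableEq μ]

lemma coeff_grp_inl (F : κ → Polynomial R) (b : μ → R)
    (hF : ∀ c, (F c).natDegree ≤ dd (Sum.inl c)) (c : κ) (k : ℕ) (e : (κ × Fin 2) ⊕ μ →₀ ℕ) :
    coeff (e.filter (fun v => gr v = Sum.inl c)) (grp dd F b (Sum.inl c) ^ k) =
      if e (Sum.inl (c, 0)) + e (Sum.inl (c, 1)) = dd (Sum.inl c) * k then
        ((F c) ^ k).coeff (e (Sum.inl (c, 0))) else 0 := by
  have h1 : grp dd F b (Sum.inl c) ^ k =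
      rename (fun s : Fin 2 => Sum.inl (c, s)) (((F c) ^ k).homogenize (dd (Sum.inl c) * k)) := by
    rw [← homogenize_pow (dd (Sum.inl c)) (F c) (hF c), map_pow]
    rfl
  have h2 : e.filter (fun v => gr v = Sum.inl c) =
      Finsupp.mapDomain (fun s : Fin 2 => (Sum.inl (c, s) : (κ × Fin 2) ⊕ μ))
        (Finsupp.equivFunOnFinite.symm fun s => e (Sum.inl (c, s))) := by
    ext v
    by_cases hv : gr v = Sum.inl c
    · rw [Finsupp.filter_apply, if_pos hv]
      rcases v with ⟨c', s⟩ | d
      · have : c' = c := Sum.inl_injective hv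
        subst this
        have := Finsupp.mapDomain_apply (inl_inj (μ := μ) c')
          (Finsupp.equivFunOnFinite.symm fun s => e (Sum.inl (c', s))) s
        rw [this]
        rfl
      · exact absurd hv (by simp [gr])
    · rw [Finsupp.filter_apply, if_neg hv]
      symm
      apply Finsupp.mapDomain_of_notMem_range
      rintro ⟨s, rfl⟩
      exact hv rfl
  rw [h1, h2, coeff_rename_mapDomain _ (inl_inj c), Polynomial.coeff_homogenize]
  rfl

lemma coeff_grp_inr (F : κ → Polynomial R) (b : μ → R) (d : μ) (k : ℕ)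
    (e : (κ × Fin 2) ⊕ μ →₀ ℕ) :
    coeff (e.filter (fun v => gr v = Sum.inr d)) (grp dd F b (Sum.inr d) ^ k) =
      if e (Sum.inr d) = dd (Sum.inr d) * k then (b d) ^ k else 0 := by
  have h1 : grp dd F b (Sum.inr d) ^ k = C ((b d) ^ k) * X (Sum.inr d) ^ (dd (Sum.inr d) * k) := by
    show (C (b d) * X (Sum.inr d) ^ dd (Sum.inr d)) ^ k = _
    rw [mul_pow, C_pow, pow_mul]
  have h2 : e.filter (fun v => gr v = Sum.inr d) = Finsupp.single (Sum.inr d) (e (Sum.inr d)) := by
    ext v
    by_cases hv : gr v = Sum.inr d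
    · rw [Finsupp.filter_apply, if_pos hv]
      rcases v with ⟨c', s⟩ | d'
      · exact absurd hv (by simp [gr])
      · have : d' = d := Sum.inr_injective hv
        subst this
        rw [Finsupp.single_eq_same]
    · rw [Finsupp.filter_apply, if_neg hv, Finsupp.single_apply, if_neg]
      rintro rfl
      exact hv rfl
  rw [h1, h2, coeff_C_mul, coeff_X_pow]
  by_cases h : e (Sum.inr d) = dd (Sum.inr d) * k
  · rw [if_pos h, if_pos (by rw [h]), mul_one]
  · rw [if_neg h, if_neg, mul_zero]
    intro h'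
    apply h
    have := congrArg (fun f => f (Sum.inr d)) h'
    simpa using this.symm

/-- the coefficients of the powers of the sum -/
lemma coeff_join_pow [Fintype κ] [Fintype μ] (F : κ → Polynomial R) (b : μ → R)
    (hF : ∀ c, (F c).natDegree ≤ dd (Sum.inl c)) (n : ℕ) (e : (κ × Fin 2) ⊕ μ →₀ ℕ) :
    coeff e ((∑ g, grp dd F b g) ^ n) = ∑ k ∈ Finset.piAntidiag Finset.univ n,
      (Nat.multinomial Finset.univ k : R) *
        ((∏ c, if e (Sum.inl (c, 0)) + e (Sum.inl (c, 1)) = dd (Sum.inl c) * k (Sum.inl c) then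
            ((F c) ^ k (Sum.inl c)).coeff (e (Sum.inl (c, 0))) else 0) *
          ∏ d, if e (Sum.inr d) = dd (Sum.inr d) * k (Sum.inr d) then
            (b d) ^ k (Sum.inr d) else 0) := by
  rw [coeff_sum_pow gr (grp dd F b) (sup_grp dd F b)]
  refine Finset.sum_congr rfl fun k _ => ?_
  rw [Fintype.prod_sum_type]
  congr 2
  · exact Finset.prod_congr rfl fun c _ => coeff_grp_inl dd F b hF c _ e
  · exact Finset.prod_congr rfl fun d _ => coeff_grp_inr dd F b d _ e

end

end Pool.Agent.Q267.SE
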