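import Pool.Agent.Q267.SE.Main
import Pool.Agent.Q267.SE.MvC

/-!
The Hasse-Witt matrix of a hypersurface in a weighted projective space which is a sum of binary
forms and monomials.
-/

set_option autoImplicit false

namespace Pool.Agent.Q267.SE

/-- the exponents of the negative monomials of weighted degree `-m` -/
abbrev Idx {V : Type*} [Fintype V] (W : V → ℕ) (m : ℕ) :=
  {u : V → Fin (m + 1) // (∀ v, 0 < (u v : ℕ)) ∧ ∑ v, W v * (u v : ℕ) = m}

/-- the Hasse-Witt matrix of a hypersurface of weighted degree `m` -/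
noncomputable def hwM {R V : Type*} [CommRing R] [Fintype V] (W : V → ℕ) (p m : ℕ)
    (F : MvPolynomial V R) : Matrix (Idx W m) (Idx W m) R :=
  Matrix.of fun u w => MvPolynomial.coeff (Finsupp.equivFunOnFinite.symm fun v => p * (u.1 v : ℕ))
    (MvPolynomial.monomial (Finsupp.equivFunOnFinite.symm fun v => (w.1 v : ℕ)) 1 * F ^ (p - 1))

section

variable {κ μ : Type*} [Fintype κ] [Fintype μ] (wt : κ ⊕ μ → ℕ) {m : ℕ}

/-- the weights of the variables -/
def WW : (κ × Fin 2) ⊕ μ → ℕ := fun v => wt (gr v)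

variable {wt}

/-- the degree of the exponent in a group of variables -/
def dg (u : Idx (WW wt) m) : κ ⊕ μ → ℕ :=
  Sum.elim (fun c => (u.1 (Sum.inl (c, 0)) : ℕ) + (u.1 (Sum.inl (c, 1)) : ℕ))
    (fun d => (u.1 (Sum.inr d) : ℕ))

lemma dg_sum (u : Idx (WW wt) m) : ∑ g, wt g * dg u g = m := by
  refine Eq.trans ?_ u.2.2
  rw [Fintype.sum_sum_type, Fintype.sum_sum_type, Fintype.sum_prod_type]
  have h1 : ∀ c : κ, ∑ s : Fin 2, WW wt (Sum.inl (c, s)) * (u.1 (Sum.inl (c, s)) : ℕ) =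
      wt (Sum.inl c) * dg u (Sum.inl c) := fun c => by
    rw [Fin.sum_univ_two]
    show wt (Sum.inl c) * _ + wt (Sum.inl c) * _ = wt (Sum.inl c) * (_ + _)
    rw [mul_add]
  rw [Finset.sum_congr rfl fun c _ => h1 c]
  rfl

lemma dg_pos (u : Idx (WW wt) m) (g : κ ⊕ μ) : 0 < dg u g := by
  rcases g with c | d
  · have := u.2.1 (Sum.inl (c, 0))
    show 0 < (u.1 (Sum.inl (c, 0)) : ℕ) + (u.1 (Sum.inl (c, 1)) : ℕ)
    omega
  · exact u.2.1 (Sum.inr d)

lemma dg_lt (hm : 0 < m) (h2 : 2 ≤ Fintype.card κ + Fintype.card μ) {dd : κ ⊕ μ → ℕ}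
    (hwd : ∀ g, wt g * dd g = m) (u : Idx (WW wt) m) (g : κ ⊕ μ) : dg u g < dd g := by
  classical
  have h3 : 1 < Fintype.card (κ ⊕ μ) := by rw [Fintype.card_sum]; omega
  obtain ⟨g', hg'⟩ := Fintype.exists_ne_of_one_lt_card h3 g
  have h4 := dg_sum u
  rw [← Finset.add_sum_erase _ _ (Finset.mem_univ g)] at h4
  have h5 : wt g' * dg u g' ≤ ∑ x ∈ Finset.univ.erase g, wt x * dg u x :=
    Finset.single_le_sum (f := fun x => wt x * dg u x) (fun _ _ => Nat.zero_le _)
      (Finset.mem_erase.2 ⟨hg', Finset.mem_univ _⟩)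
  have h6 := dg_pos u g'
  have h7 : 0 < wt g' := Nat.pos_of_ne_zero fun h => by
    have := hwd g'
    rw [h, zero_mul] at this
    omega
  have h8 := Nat.mul_pos h7 h6
  have h9 : wt g * dg u g < wt g * dd g := by rw [hwd]; omega
  exact Nat.lt_of_mul_lt_mul_left h9

lemma num_lemma (p m q x y k : ℕ) (hq : p = m * q + 1) (h : p * x = m * k + y)
    (hx1 : x < m) (hy1 : y < m) : x = y ∧ k = q * x := by
  have h1 : m * (q * x) + x = m * k + y := by
    rw [← h, hq]; ring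
  have h2 : x = y := by
    have h3 := congrArg (fun n => n % m) h1
    simp only [Nat.mul_add_mod] at h3
    rwa [Nat.mod_eq_of_lt hx1, Nat.mod_eq_of_lt hy1] at h3
  refine ⟨h2, ?_⟩
  subst h2
  have h4 : m * (q * x) = m * k := by omega
  exact (Nat.eq_of_mul_eq_mul_left (by omega) h4).symm

variable [DecidableEq κ] [DecidableEq μ] {R : Type*} [CommRing R]

lemma hwM_apply (hm : 0 < m) (h2 : 2 ≤ Fintype.card κ + Fintype.card μ) {dd : κ ⊕ μ → ℕ}
    (hwd : ∀ g, wt g * dd g = m) (p q : ℕ) (hq : p = m * q + 1)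
    (hmp : m ≤ p) (F : κ → Polynomial R) (b : μ → R)
    (hF : ∀ c, (F c).natDegree ≤ dd (Sum.inl c)) (u w : Idx (WW wt) m) :
    hwM (WW wt) p m (∑ g, grp dd F b g) u w = if ∀ g, dg u g = dg w g then
      (Nat.multinomial Finset.univ (fun g => q * wt g * dg u g) : R) *
        ((∏ c, ((F c) ^ (q * wt (Sum.inl c) * dg u (Sum.inl c))).coeff
          (p * (u.1 (Sum.inl (c, 0)) : ℕ) - (w.1 (Sum.inl (c, 0)) : ℕ))) *
          ∏ d, (b d) ^ (q * wt (Sum.inr d) * dg u (Sum.inr d))) else 0 := by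
  have hpd : ∀ g, p = dd g * (q * wt g) + 1 := by
    intro g
    rw [hq, ← hwd g]; ring
  have hle : ∀ v, (w.1 v : ℕ) ≤ p * (u.1 v : ℕ) := by
    intro v
    have h3 := (w.1 v).2
    have h4 := Nat.mul_le_mul_left p (u.2.1 v)
    omega
  have hle' : (Finsupp.equivFunOnFinite.symm fun v => (w.1 v : ℕ)) ≤
      (Finsupp.equivFunOnFinite.symm fun v => p * (u.1 v : ℕ)) := fun v => hle v
  rw [hwM, Matrix.of_apply, MvPolynomial.coeff_monomial_mul', if_pos hle', one_mul,
    coeff_join_pow dd F b hF]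
  obtain ⟨e, he⟩ : ∃ e, e = (Finsupp.equivFunOnFinite.symm fun v => p * (u.1 v : ℕ)) -
    (Finsupp.equivFunOnFinite.symm fun v => (w.1 v : ℕ)) := ⟨_, rfl⟩
  have hev : ∀ v, e v = p * (u.1 v : ℕ) - (w.1 v : ℕ) := by
    intro v; rw [he]; rfl
  rw [← he]
  -- which terms are nonzero
  have hc : ∀ c k, e (Sum.inl (c, 0)) + e (Sum.inl (c, 1)) = dd (Sum.inl c) * k →
      dg u (Sum.inl c) = dg w (Sum.inl c) ∧ k = q * wt (Sum.inl c) * dg u (Sum.inl c) := by
    intro c k h
    rw [hev, hev] at h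
    have h0 := hle (Sum.inl (c, 0))
    have h1 := hle (Sum.inl (c, 1))
    refine num_lemma p (dd (Sum.inl c)) (q * wt (Sum.inl c)) _ _ k (hpd _) ?_
      (dg_lt hm h2 hwd u _) (dg_lt hm h2 hwd w _)
    show p * ((u.1 (Sum.inl (c, 0)) : ℕ) + (u.1 (Sum.inl (c, 1)) : ℕ)) =
      dd (Sum.inl c) * k + ((w.1 (Sum.inl (c, 0)) : ℕ) + (w.1 (Sum.inl (c, 1)) : ℕ))
    rw [mul_add]
    omega
  have hd : ∀ d k, e (Sum.inr d) = dd (Sum.inr d) * k →
      dg u (Sum.inr d) = dg w (Sum.inr d) ∧ k = q * wt (Sum.inr d) * dg u (Sum.inr d) := by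
    intro d k h
    rw [hev] at h
    have h0 := hle (Sum.inr d)
    refine num_lemma p (dd (Sum.inr d)) (q * wt (Sum.inr d)) _ _ k (hpd _) ?_
      (dg_lt hm h2 hwd u _) (dg_lt hm h2 hwd w _)
    show p * (u.1 (Sum.inr d) : ℕ) = dd (Sum.inr d) * k + (w.1 (Sum.inr d) : ℕ)
    omega
  have hterm : ∀ k : κ ⊕ μ → ℕ, (Nat.multinomial Finset.univ k : R) *
        ((∏ c, if e (Sum.inl (c, 0)) + e (Sum.inl (c, 1)) = dd (Sum.inl c) * k (Sum.inl c) then
            ((F c) ^ k (Sum.inl c)).coeff (e (Sum.inl (c, 0))) else 0) *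
          ∏ d, if e (Sum.inr d) = dd (Sum.inr d) * k (Sum.inr d) then
            (b d) ^ k (Sum.inr d) else 0) ≠ 0 →
      ∀ g, dg u g = dg w g ∧ k g = q * wt g * dg u g := by
    intro k hk g
    have hk1 := left_ne_zero_of_mul (right_ne_zero_of_mul hk)
    have hk2 := right_ne_zero_of_mul (right_ne_zero_of_mul hk)
    rcases g with c | d
    · by_contra hcon
      apply hk1
      apply Finset.prod_eq_zero (Finset.mem_univ c)
      rw [if_neg]
      intro h
      exact hcon (hc c _ h)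
    · by_contra hcon
      apply hk2
      apply Finset.prod_eq_zero (Finset.mem_univ d)
      rw [if_neg]
      intro h
      exact hcon (hd d _ h)
  split_ifs with hall
  · rw [Finset.sum_eq_single (fun g => q * wt g * dg u g)]
    · congr 2
      · refine Finset.prod_congr rfl fun c _ => ?_
        rw [if_pos, hev]
        have h0 := hle (Sum.inl (c, 0))
        have h1 := hle (Sum.inl (c, 1))
        rw [hev, hev]
        have h3 : dg u (Sum.inl c) = dg w (Sum.inl c) := hall _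
        have h4 : dg u (Sum.inl c) =
          (u.1 (Sum.inl (c, 0)) : ℕ) + (u.1 (Sum.inl (c, 1)) : ℕ) := rfl
        have h5 : dg w (Sum.inl c) =
          (w.1 (Sum.inl (c, 0)) : ℕ) + (w.1 (Sum.inl (c, 1)) : ℕ) := rfl
        have h6 : p * ((u.1 (Sum.inl (c, 0)) : ℕ) + (u.1 (Sum.inl (c, 1)) : ℕ)) =
            dd (Sum.inl c) * (q * wt (Sum.inl c) * dg u (Sum.inl c)) + dg u (Sum.inl c) := by
          conv_lhs => rw [← h4, hpd (Sum.inl c)]
          ring
        rw [mul_add] at h6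
        show _ = dd (Sum.inl c) * (q * wt (Sum.inl c) * dg u (Sum.inl c))
        omega
      · refine Finset.prod_congr rfl fun d _ => ?_
        rw [if_pos]
        have h0 := hle (Sum.inr d)
        rw [hev]
        have h3 : dg u (Sum.inr d) = dg w (Sum.inr d) := hall _
        have h4 : dg u (Sum.inr d) = (u.1 (Sum.inr d) : ℕ) := rfl
        have h5 : dg w (Sum.inr d) = (w.1 (Sum.inr d) : ℕ) := rfl
        have h6 : p * (u.1 (Sum.inr d) : ℕ) =
            dd (Sum.inr d) * (q * wt (Sum.inr d) * dg u (Sum.inr d)) + dg u (Sum.inr d) := by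
          conv_lhs => rw [← h4, hpd (Sum.inr d)]
          ring
        show _ = dd (Sum.inr d) * (q * wt (Sum.inr d) * dg u (Sum.inr d))
        omega
    · intro k _ hk
      by_contra hne
      exact hk (funext fun g => (hterm k hne g).2)
    · intro hnot
      exfalso
      apply hnot
      rw [Finset.mem_piAntidiag]
      refine ⟨?_, fun g _ => Finset.mem_univ g⟩
      have h3 : ∀ g, q * wt g * dg u g = q * (wt g * dg u g) := fun g => mul_assoc _ _ _
      rw [Finset.sum_congr rfl fun g _ => h3 g, ← Finset.mul_sum, dg_sum, hq,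
        Nat.add_sub_cancel, mul_comm]
  · apply Finset.sum_eq_zero
    intro k _
    by_contra hne
    exact hall fun g => (hterm k hne g).1

end

/-! ### the tensor product -/

section

variable {K : Type*} [Field K]

lemma tensor_inv {ι : Type*} [Fintype ι] [DecidableEq ι] {U : ι → Type*} [∀ i, Fintype (U i)]
    [∀ i, DecidableEq (U i)] (B : ∀ i, Matrix (U i) (U i) K) (hB : ∀ i, (B i).det ≠ 0)
    (s s'' : ∀ i, U i) :
    ∑ s' : (∀ i, U i), (∏ i, (B i)⁻¹ (s i) (s' i)) * (∏ i, B i (s' i) (s'' i)) =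
      if s = s'' then 1 else 0 := by
  have h1 : ∀ s' : (∀ i, U i), (∏ i, (B i)⁻¹ (s i) (s' i)) * (∏ i, B i (s' i) (s'' i)) =
      ∏ i, ((B i)⁻¹ (s i) (s' i) * B i (s' i) (s'' i)) := fun s' =>
    (Finset.prod_mul_distrib).symm
  rw [Finset.sum_congr rfl fun s' _ => h1 s']
  have h2 := Finset.prod_univ_sum (fun i : ι => (Finset.univ : Finset (U i)))
    (fun i x => (B i)⁻¹ (s i) x * B i x (s'' i))
  rw [Fintype.piFinset_univ] at h2
  rw [← h2]
  have h3 : ∀ i, ∑ x, (B i)⁻¹ (s i) x * B i x (s'' i) = if s i = s'' i then 1 else 0 := by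
    intro i
    rw [← Matrix.mul_apply, Matrix.nonsing_inv_mul _ (isUnit_iff_ne_zero.2 (hB i)),
      Matrix.one_apply]
  rw [Finset.prod_congr rfl fun i _ => h3 i]
  by_cases h : s = s''
  · rw [if_pos h, Finset.prod_eq_one]
    intro i _
    rw [if_pos (congrFun h i)]
  · rw [if_neg h]
    obtain ⟨i, hi⟩ := Function.ne_iff.1 h
    exact Finset.prod_eq_zero (Finset.mem_univ i) (if_neg hi)

/-- A part of a tensor product of invertible matrices which is closed under the nonzero entries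
is invertible. -/
lemma det_tensor {κ μ I : Type*} [Fintype κ] [DecidableEq κ] [Fintype μ] [DecidableEq μ]
    {U : κ → Type*} [∀ c, Fintype (U c)] [∀ c, DecidableEq (U c)]
    {W : μ → Type*} [∀ d, Fintype (W d)] [∀ d, DecidableEq (W d)] [Fintype I] [DecidableEq I]
    (B : ∀ c, Matrix (U c) (U c) K) (hB : ∀ c, (B c).det ≠ 0) (D : ∀ d, Matrix (W d) (W d) K)
    (hD : ∀ d, (D d).det ≠ 0) (φ : I → (∀ c, U c) × (∀ d, W d)) (hφ : Function.Injective φ)
    (hcl : ∀ x w, (∏ c, B c (x.1 c) ((φ w).1 c)) * (∏ d, D d (x.2 d) ((φ w).2 d)) ≠ 0 →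
      x ∈ Set.range φ) (c : I → K) (hc : ∀ u, c u ≠ 0) (H : Matrix I I K)
    (hH : ∀ u w, H u w = c u *
      ((∏ c, B c ((φ u).1 c) ((φ w).1 c)) * (∏ d, D d ((φ u).2 d) ((φ w).2 d)))) :
    H.det ≠ 0 := by
  let T : Matrix I I K := Matrix.of fun u w =>
    (∏ c, B c ((φ u).1 c) ((φ w).1 c)) * (∏ d, D d ((φ u).2 d) ((φ w).2 d))
  let T' : Matrix I I K := Matrix.of fun u w =>
    (∏ c, (B c)⁻¹ ((φ u).1 c) ((φ w).1 c)) * (∏ d, (D d)⁻¹ ((φ u).2 d) ((φ w).2 d))
  have h1 : T' * T = 1 := by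
    ext u w
    rw [Matrix.mul_apply, Matrix.one_apply]
    have h2 := Fintype.sum_of_injective φ hφ (fun x => T' u x * T x w)
      (fun x : (∀ c, U c) × (∀ d, W d) =>
        ((∏ c, (B c)⁻¹ ((φ u).1 c) (x.1 c)) * (∏ d, (D d)⁻¹ ((φ u).2 d) (x.2 d))) *
        ((∏ c, B c (x.1 c) ((φ w).1 c)) * (∏ d, D d (x.2 d) ((φ w).2 d))))
      (by
        intro x hx
        by_contra hne
        exact hx (hcl x w (right_ne_zero_of_mul hne))) (fun x => rfl)
    rw [h2, Fintype.sum_prod_type]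
    have h3 : ∀ x : (∀ c, U c), ∑ y : (∀ d, W d),
        ((∏ c, (B c)⁻¹ ((φ u).1 c) (x c)) * (∏ d, (D d)⁻¹ ((φ u).2 d) (y d))) *
        ((∏ c, B c (x c) ((φ w).1 c)) * (∏ d, D d (y d) ((φ w).2 d))) =
        ((∏ c, (B c)⁻¹ ((φ u).1 c) (x c)) * (∏ c, B c (x c) ((φ w).1 c))) *
          if (φ u).2 = (φ w).2 then 1 else 0 := by
      intro x
      rw [← tensor_inv D hD, Finset.mul_sum]
      refine Finset.sum_congr rfl fun y _ => ?_
      ring
    rw [Finset.sum_congr rfl fun x _ => h3 x, ← Finset.sum_mul, tensor_inv B hB]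
    by_cases h : u = w
    · rw [if_pos h, if_pos (by rw [h]), if_pos (by rw [h]), one_mul]
    · rw [if_neg h]
      by_cases h4 : (φ u).1 = (φ w).1
      · rw [if_neg (fun h5 => h (hφ (Prod.ext h4 h5))), mul_zero]
      · rw [if_neg h4, zero_mul]
  have h2 : H = Matrix.diagonal c * T := by
    ext u w
    rw [Matrix.diagonal_mul, hH]
    rfl
  have h3 : T.det ≠ 0 := by
    intro h0
    have := congrArg Matrix.det h1
    rw [Matrix.det_mul, h0, mul_zero, Matrix.det_one] at this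
    exact zero_ne_one this
  rw [h2, Matrix.det_mul, Matrix.det_diagonal]
  exact mul_ne_zero (Finset.prod_ne_zero_iff.2 fun u _ => hc u) h3

end

/-- the local index set of a binary form -/
abbrev LI (m : ℕ) := Σ i : Fin m, Fin (i.val - 1)

lemma LI_ext {m : ℕ} (x y : LI m) (h1 : (x.1 : ℕ) = y.1) (h2 : (x.2 : ℕ) = y.2) : x = y := by
  obtain ⟨i, a⟩ := x
  obtain ⟨j, b⟩ := y
  have h3 : i = j := Fin.ext h1
  subst h3
  have h4 : a = b := Fin.ext h2
  rw [h4]

lemma blockDiag_apply {R : Type*} [CommRing R] (p q m : ℕ) (F : Polynomial R) (x y : LI m) :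
    Matrix.blockDiagonal' (fun i : Fin m => hw p (i.val - 1) (F ^ (q * i.val))) x y =
      if (x.1 : ℕ) = y.1 then
        (Polynomial.X ^ ((y.2 : ℕ) + 1) * F ^ (q * (x.1 : ℕ))).coeff (p * ((x.2 : ℕ) + 1)) else 0 := by
  obtain ⟨i, a⟩ := x
  obtain ⟨j, b⟩ := y
  by_cases h : i = j
  · subst h
    rw [Matrix.blockDiagonal'_apply_eq, if_pos rfl]
    rfl
  · rw [Matrix.blockDiagonal'_apply_ne _ _ _ h, if_neg (fun h' => h (Fin.ext h'))]

/-- **Join theorem.** -/
theorem det_hwM_ne_zero {K : Type*} [Field K] {κ μ : Type*} [Fintype κ] [Fintype μ]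
    [DecidableEq κ] [DecidableEq μ] {wt dd : κ ⊕ μ → ℕ} {m : ℕ} (hm : 0 < m)
    (hwd : ∀ g, wt g * dd g = m) (h2 : 2 ≤ Fintype.card κ + Fintype.card μ)
    (p q : ℕ) [hp : Fact p.Prime] [CharP K p] (hq : p = m * q + 1) (hmp : m ≤ p)
    (F : κ → Polynomial K) (b : μ → K) (hF : ∀ c, (F c).natDegree ≤ dd (Sum.inl c))
    (hdet : ∀ c (i : Fin (dd (Sum.inl c))),
      (hw p (i.val - 1) ((F c) ^ (q * wt (Sum.inl c) * i.val))).det ≠ 0)
    (hb : ∀ d, b d ≠ 0) : (hwM (WW wt) p m (∑ g, grp dd F b g)).det ≠ 0 := by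
  let B : ∀ c : κ, Matrix (LI (dd (Sum.inl c))) (LI (dd (Sum.inl c))) K := fun c =>
    Matrix.blockDiagonal' (fun i : Fin (dd (Sum.inl c)) =>
      hw p (i.val - 1) ((F c) ^ (q * wt (Sum.inl c) * i.val)))
  let D : ∀ d : μ, Matrix (Fin (dd (Sum.inr d))) (Fin (dd (Sum.inr d))) K := fun d =>
    Matrix.diagonal (fun i : Fin (dd (Sum.inr d)) => (b d) ^ (q * wt (Sum.inr d) * i.val))
  let φ : Idx (WW wt) m → (∀ c : κ, LI (dd (Sum.inl c))) × (∀ d : μ, Fin (dd (Sum.inr d))) :=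
    fun u => (fun c => ⟨⟨dg u (Sum.inl c), dg_lt hm h2 hwd u _⟩,
      ⟨(u.1 (Sum.inl (c, 0)) : ℕ) - 1, by
      have h3 := u.2.1 (Sum.inl (c, 0))
      have h4 := u.2.1 (Sum.inl (c, 1))
      show (u.1 (Sum.inl (c, 0)) : ℕ) - 1 <
        (u.1 (Sum.inl (c, 0)) : ℕ) + (u.1 (Sum.inl (c, 1)) : ℕ) - 1
      omega⟩⟩, fun d => ⟨dg u (Sum.inr d), dg_lt hm h2 hwd u _⟩)
  have hφ : Function.Injective φ := by
    intro u w h
    apply Subtype.ext
    funext v
    apply Fin.ext
    have hu := u.2.1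
    have hw := w.2.1
    rcases v with ⟨c, s⟩ | d
    · have h3 := congrArg (fun x => x.1 c) h
      have h4 : dg u (Sum.inl c) = dg w (Sum.inl c) :=
        congrArg (fun x : LI (dd (Sum.inl c)) => (x.1 : ℕ)) h3
      have h5 : (u.1 (Sum.inl (c, 0)) : ℕ) - 1 = (w.1 (Sum.inl (c, 0)) : ℕ) - 1 :=
        congrArg (fun x : LI (dd (Sum.inl c)) => (x.2 : ℕ)) h3
      have h6 : (u.1 (Sum.inl (c, 0)) : ℕ) + (u.1 (Sum.inl (c, 1)) : ℕ) =
        (w.1 (Sum.inl (c, 0)) : ℕ) + (w.1 (Sum.inl (c, 1)) : ℕ) := h4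
      have h7 := hu (Sum.inl (c, 0))
      have h8 := hw (Sum.inl (c, 0))
      fin_cases s
      · show (u.1 (Sum.inl (c, 0)) : ℕ) = (w.1 (Sum.inl (c, 0)) : ℕ)
        omega
      · show (u.1 (Sum.inl (c, 1)) : ℕ) = (w.1 (Sum.inl (c, 1)) : ℕ)
        omega
    · have h3 := congrArg (fun x => x.2 d) h
      exact congrArg (fun x : Fin (dd (Sum.inr d)) => (x : ℕ)) h3
  refine det_tensor B ?_ D ?_ φ hφ ?_
    (fun u => (Nat.multinomial Finset.univ (fun g => q * wt g * dg u g) : K)) ?_ _ ?_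
  · intro c
    show (Matrix.blockDiagonal' _).det ≠ 0
    intro h0
    have h3 := Matrix.blockDiagonal'_mul
      (fun i : Fin (dd (Sum.inl c)) =>
        (hw p (i.val - 1) ((F c) ^ (q * wt (Sum.inl c) * i.val)))⁻¹)
      (fun i : Fin (dd (Sum.inl c)) => hw p (i.val - 1) ((F c) ^ (q * wt (Sum.inl c) * i.val)))
    have h4 : (fun i : Fin (dd (Sum.inl c)) =>
        (hw p (i.val - 1) ((F c) ^ (q * wt (Sum.inl c) * i.val)))⁻¹ *
        hw p (i.val - 1) ((F c) ^ (q * wt (Sum.inl c) * i.val))) =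
        (1 : ∀ i : Fin (dd (Sum.inl c)), Matrix (Fin (i.val - 1)) (Fin (i.val - 1)) K) := by
      funext i
      exact Matrix.nonsing_inv_mul _ (isUnit_iff_ne_zero.2 (hdet c i))
    rw [h4, Matrix.blockDiagonal'_one] at h3
    have h5 := congrArg Matrix.det h3
    rw [Matrix.det_mul, h0, mul_zero, Matrix.det_one] at h5
    exact one_ne_zero h5
  · intro d
    show (Matrix.diagonal _).det ≠ 0
    rw [Matrix.det_diagonal]
    exact Finset.prod_ne_zero_iff.2 fun i _ => pow_ne_zero _ (hb d)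
  · -- closedness
    rintro ⟨x, y⟩ w hne
    have hx : ∀ c, ((x c).1 : ℕ) = dg w (Sum.inl c) := by
      intro c
      by_contra hcon
      apply left_ne_zero_of_mul hne
      apply Finset.prod_eq_zero (Finset.mem_univ c)
      show Matrix.blockDiagonal' _ _ _ = 0
      rw [blockDiag_apply, if_neg hcon]
    have hy : ∀ d, ((y d) : ℕ) = dg w (Sum.inr d) := by
      intro d
      by_contra hcon
      apply right_ne_zero_of_mul hne
      apply Finset.prod_eq_zero (Finset.mem_univ d)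
      show Matrix.diagonal _ _ _ = 0
      rw [Matrix.diagonal_apply_ne]
      intro h
      exact hcon (congrArg (fun x : Fin (dd (Sum.inr d)) => (x : ℕ)) h)
    have hddm : ∀ g, dd g ≤ m := fun g => by
      have h3 := hwd g
      have h4 : 0 < wt g := Nat.pos_of_ne_zero fun h => by
        rw [h, zero_mul] at h3
        omega
      calc dd g ≤ wt g * dd g := Nat.le_mul_of_pos_left _ h4
        _ = m := h3
    have hxlt : ∀ c, ((x c).2 : ℕ) + 1 < (x c).1 := fun c => by have := (x c).2.2; omega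
    have hxm : ∀ c, ((x c).1 : ℕ) < m := fun c => lt_of_lt_of_le (x c).1.2 (hddm _)
    have hym : ∀ d, ((y d) : ℕ) < m := fun d => lt_of_lt_of_le (y d).2 (hddm _)
    let u : (κ × Fin 2) ⊕ μ → Fin (m + 1) := Sum.elim
      (fun cs => if cs.2 = 0 then ⟨((x cs.1).2 : ℕ) + 1, by
          have := hxlt cs.1; have := hxm cs.1; omega⟩
        else ⟨((x cs.1).1 : ℕ) - ((x cs.1).2 : ℕ) - 1, by have := hxm cs.1; omega⟩)
      (fun d => ⟨(y d : ℕ), by have := hym d; omega⟩)
    have hu0 : ∀ c, (u (Sum.inl (c, 0)) : ℕ) = ((x c).2 : ℕ) + 1 := fun c => rfl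
    have hu1 : ∀ c, (u (Sum.inl (c, 1)) : ℕ) = ((x c).1 : ℕ) - ((x c).2 : ℕ) - 1 := fun c => rfl
    have hud : ∀ d, (u (Sum.inr d) : ℕ) = (y d : ℕ) := fun d => rfl
    have hupos : ∀ v, 0 < (u v : ℕ) := by
      intro v
      rcases v with ⟨c, s⟩ | d
      · fin_cases s
        · show 0 < (u (Sum.inl (c, 0)) : ℕ)
          rw [hu0]; omega
        · show 0 < (u (Sum.inl (c, 1)) : ℕ)
          rw [hu1]; have := hxlt c; omega
      · rw [hud, hy]
        exact dg_pos w _
    have husum : ∑ v, WW wt v * (u v : ℕ) = m := by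
      refine Eq.trans ?_ (dg_sum w)
      rw [Fintype.sum_sum_type, Fintype.sum_sum_type, Fintype.sum_prod_type]
      have e1 : ∀ c : κ, ∑ s : Fin 2, WW wt (Sum.inl (c, s)) * (u (Sum.inl (c, s)) : ℕ) =
          wt (Sum.inl c) * dg w (Sum.inl c) := by
        intro c
        rw [Fin.sum_univ_two, hu0, hu1, ← hx c]
        show wt (Sum.inl c) * _ + wt (Sum.inl c) * _ = _
        rw [← mul_add]
        congr 1
        have := hxlt c; omega
      have e2 : ∀ d : μ, WW wt (Sum.inr d) * (u (Sum.inr d) : ℕ) =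
          wt (Sum.inr d) * dg w (Sum.inr d) := by
        intro d
        rw [hud, hy]
        rfl
      rw [Finset.sum_congr rfl fun c _ => e1 c, Finset.sum_congr rfl fun d _ => e2 d]
    refine ⟨⟨u, hupos, husum⟩, ?_⟩
    refine Prod.ext (funext fun c => LI_ext _ _ ?_ ?_) (funext fun d => Fin.ext ?_)
    · show (u (Sum.inl (c, 0)) : ℕ) + (u (Sum.inl (c, 1)) : ℕ) = ((x c).1 : ℕ)
      rw [hu0, hu1]
      have := hxlt c; omega
    · show (u (Sum.inl (c, 0)) : ℕ) - 1 = ((x c).2 : ℕ)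
      rw [hu0]; omega
    · exact hud d
  · -- the multinomial coefficient
    intro u h0
    rw [CharP.cast_eq_zero_iff K p] at h0
    have h3 := Nat.multinomial_spec Finset.univ (fun g => q * wt g * dg u g)
    have h4 : ∑ g, q * wt g * dg u g = p - 1 := by
      have h3 : ∀ g, q * wt g * dg u g = q * (wt g * dg u g) := fun g => mul_assoc _ _ _
      rw [Finset.sum_congr rfl fun g _ => h3 g, ← Finset.mul_sum, dg_sum, hq,
        Nat.add_sub_cancel, mul_comm]
    rw [h4] at h3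
    have h5 : p ∣ (p - 1).factorial := by
      rw [← h3]; exact h0.mul_left _
    have h6 := (Nat.Prime.dvd_factorial hp.out).1 h5
    have := hp.out.pos
    omega
  · intro u w
    rw [hwM_apply hm h2 hwd p q hq hmp F b hF u w]
    have hBe : ∀ c, B c ((φ u).1 c) ((φ w).1 c) =
        if dg u (Sum.inl c) = dg w (Sum.inl c) then
          ((F c) ^ (q * wt (Sum.inl c) * dg u (Sum.inl c))).coeff
          (p * (u.1 (Sum.inl (c, 0)) : ℕ) - (w.1 (Sum.inl (c, 0)) : ℕ)) else 0 := by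
      intro c
      show Matrix.blockDiagonal' _ _ _ = _
      rw [blockDiag_apply]
      show (if dg u (Sum.inl c) = dg w (Sum.inl c) then
        (Polynomial.X ^ (((w.1 (Sum.inl (c, 0)) : ℕ) - 1) + 1) *
          (F c) ^ (q * wt (Sum.inl c) * dg u (Sum.inl c))).coeff
            (p * (((u.1 (Sum.inl (c, 0)) : ℕ) - 1) + 1))
        else 0) = _
      have h3 := u.2.1 (Sum.inl (c, 0))
      have h4 := w.2.1 (Sum.inl (c, 0))
      have e1 : (u.1 (Sum.inl (c, 0)) : ℕ) - 1 + 1 = (u.1 (Sum.inl (c, 0)) : ℕ) := by omega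
      have e2 : (w.1 (Sum.inl (c, 0)) : ℕ) - 1 + 1 = (w.1 (Sum.inl (c, 0)) : ℕ) := by omega
      have h7 : (w.1 (Sum.inl (c, 0)) : ℕ) ≤ p * (u.1 (Sum.inl (c, 0)) : ℕ) := by
        have h5 := (w.1 (Sum.inl (c, 0))).2
        have h6 := Nat.mul_le_mul_left p h3
        omega
      rw [e1, e2, Polynomial.coeff_X_pow_mul', if_pos h7]
    have hDe : ∀ d, D d ((φ u).2 d) ((φ w).2 d) =
        if dg u (Sum.inr d) = dg w (Sum.inr d) then
          (b d) ^ (q * wt (Sum.inr d) * dg u (Sum.inr d)) else 0 := by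
      intro d
      show Matrix.diagonal _ _ _ = _
      rw [Matrix.diagonal_apply]
      by_cases h : dg u (Sum.inr d) = dg w (Sum.inr d)
      · rw [if_pos h, if_pos (show (φ u).2 d = (φ w).2 d from Fin.ext h)]
      · rw [if_neg h, if_neg (fun h' => h (congrArg (fun x : Fin (dd (Sum.inr d)) => (x : ℕ)) h'))]
    rw [Finset.prod_congr rfl fun c _ => hBe c, Finset.prod_congr rfl fun d _ => hDe d]
    by_cases hall : ∀ g, dg u g = dg w g
    · rw [if_pos hall]
      congr 2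
      · exact Finset.prod_congr rfl fun c _ => (if_pos (hall _)).symm
      · exact Finset.prod_congr rfl fun d _ => (if_pos (hall _)).symm
    · rw [if_neg hall]
      push Not at hall
      obtain ⟨g, hg⟩ := hall
      rcases g with c | d
      · rw [Finset.prod_eq_zero (Finset.mem_univ c) (if_neg hg), zero_mul, mul_zero]
      · rw [Finset.prod_eq_zero (s := (Finset.univ : Finset μ)) (Finset.mem_univ d) (if_neg hg),
          mul_zero, mul_zero]

end Pool.Agent.Q267.SE
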