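import Pool.Agent.Q267.SE.Block
import Pool.Agent.Y162.HW.Spread

/-!
Closed points of a model at which the Hasse-Witt matrices of finitely many eigenspaces are
invertible.
-/

set_option autoImplicit false

open Polynomial

namespace Pool.Agent.Q267.SE

open Pool.Agent.Y162.HW

lemma hw_map {R S : Type*} [CommRing R] [CommRing S] (p r : ℕ) (φ : R →+* S) (f : R[X]) :
    (hw p r f).map φ = hw p r (f.map φ) := by
  ext i j
  rw [Matrix.map_apply, hw, hw, Matrix.of_apply, Matrix.of_apply, ← coeff_map,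
    Polynomial.map_mul, Polynomial.map_pow, map_X]

lemma det_hw_map {R S : Type*} [CommRing R] [CommRing S] (p r : ℕ) (φ : R →+* S) (f : R[X]) :
    φ (hw p r f).det = (hw p r (f.map φ)).det := by
  rw [RingHom.map_det, RingHom.mapMatrix_apply, hw_map]

lemma det_hw_C_mul {R : Type*} [CommRing R] (p r : ℕ) (a : R) (f : R[X]) :
    (hw p r (C a * f)).det = a ^ r * (hw p r f).det := by
  have : hw p r (C a * f) = a • hw p r f := by
    ext i j
    rw [Matrix.smul_apply, hw, hw, Matrix.of_apply, Matrix.of_apply, smul_eq_mul,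
      ← coeff_C_mul]
    congr 1
    ring
  rw [this, Matrix.det_smul, Fintype.card_fin]

/-- For a finitely generated domain of characteristic zero and all large `p = 1 mod m` there is a
prime of `R[T]` over `p` which does not contain the Hasse-Witt determinants. -/
lemma exists_prime {R σ β : Type*} [Fintype β] [CommRing R] [IsDomain R] [CharZero R]
    [Algebra.FiniteType ℤ R] (m : ℕ) (hm : 0 < m) {J : β → Type*} [∀ b, Fintype (J b)]
    (z : ∀ b, J b → R ⊕ σ) (hz : ∀ b, Function.Injective (z b)) (n : ∀ b, J b → ℕ)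
    (hn : ∀ b j, n b j < m) (hfree : ∀ b, (∃ j s, n b j ≠ 0 ∧ z b j = Sum.inr s) ∨
      rk m (∑ j, if n b j = 0 then 0 else m - n b j) = 0) :
    ∃ N : ℕ, ∀ p q : ℕ, N ≤ p → p.Prime → p = m * q + 1 →
      ∃ P : Ideal (MvPolynomial σ R), P.IsPrime ∧ (p : MvPolynomial σ R) ∈ P ∧
        ∀ b, (hw p (rk m (∑ j, n b j)) (fp (fun j => Sum.elim MvPolynomial.C MvPolynomial.X (z b j))
          (fun j => n b j * q))).det ∉ P := by
  classical
  have hNoeth : IsNoetherianRing R := Algebra.FiniteType.isNoetherianRing ℤ R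
  obtain ⟨N1, hN1⟩ := exists_prime_over (R := R)
  let T : Finset R := Finset.univ.biUnion fun b : β =>
    Finset.univ.image fun j => Sum.elim id (fun _ => 0) (z b j)
  set δ : R := ∏ x ∈ T.offDiag, (x.1 - x.2) with hδ
  have hδ0 : δ ≠ 0 := by
    rw [hδ, Finset.prod_ne_zero_iff]
    intro x hx
    rw [Finset.mem_offDiag] at hx
    exact sub_ne_zero.2 hx.2.2
  obtain ⟨N2, hN2⟩ := large_primes δ hδ0
  refine ⟨max N1 (max N2 (m * ((∑ b, Fintype.card (J b)) + 1) + 1)), fun p q hp hpp hq => ?_⟩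
  have hpf : Fact p.Prime := ⟨hpp⟩
  obtain ⟨Q, hQ, hpQ⟩ := hN1 p ((le_max_left _ _).trans hp) hpp
  obtain ⟨P, hP, hPQ⟩ := Ideal.exists_minimalPrimes_le
    (show Ideal.span {(p : R)} ≤ Q by rw [Ideal.span_le]; simpa using hpQ)
  have hPp : P.IsPrime := hP.1.1
  have hδP := hN2 p ((le_max_left _ _).trans ((le_max_right _ _).trans hp)) hpp P hP
  have hpP : (p : R) ∈ P := hP.1.2 (Ideal.subset_span rfl)
  let ψ : R →+* R ⧸ P := Ideal.Quotient.mk P
  have hψ : ∀ x, ψ x = 0 ↔ x ∈ P := fun x => Ideal.Quotient.eq_zero_iff_mem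
  have hK0 : ((p : ℕ) : R ⧸ P) = 0 := by
    have := (hψ (p : R)).2 hpP
    rwa [map_natCast] at this
  have : CharP (R ⧸ P) p := by
    obtain ⟨q, hq⟩ := CharP.exists (R ⧸ P)
    have h1 : q ∣ p := (CharP.cast_eq_zero_iff (R ⧸ P) q p).1 hK0
    rcases (Nat.dvd_prime hpp).1 h1 with h2 | h2
    · subst h2
      exact absurd (CharP.char_ne_one (R ⧸ P) 1 rfl) (by simp)
    · rwa [← h2]
  have hinj : ∀ x ∈ T, ∀ y ∈ T, ψ x = ψ y → x = y := by
    intro x hx y hy hxy
    by_contra hne
    apply hδP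
    have h1 : ψ (x - y) = 0 := by rw [map_sub]; exact sub_eq_zero.2 hxy
    exact P.mem_of_dvd (Finset.dvd_prod_of_mem (fun x : R × R => x.1 - x.2)
      (show (x, y) ∈ T.offDiag by rw [Finset.mem_offDiag]; exact ⟨hx, hy, hne⟩)) ((hψ _).1 h1)
  have hT : ∀ b j x, z b j = Sum.inl x → x ∈ T := by
    intro b j x hx
    rw [Finset.mem_biUnion]
    refine ⟨b, Finset.mem_univ _, ?_⟩
    rw [Finset.mem_image]
    exact ⟨j, Finset.mem_univ _, by rw [hx]; rfl⟩
  let Ψ : MvPolynomial σ R →+* MvPolynomial σ (R ⧸ P) := MvPolynomial.map ψ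
  refine ⟨RingHom.ker Ψ, RingHom.ker_isPrime _, ?_, fun b => ?_⟩
  · rw [RingHom.mem_ker, map_natCast]
    have : ((p : ℕ) : MvPolynomial σ (R ⧸ P)) = MvPolynomial.C ((p : ℕ) : R ⧸ P) := by simp
    rw [this, hK0, MvPolynomial.C_0]
  · rw [RingHom.mem_ker, det_hw_map, fp_map]
    have hzm : ∀ j, Ψ (Sum.elim MvPolynomial.C MvPolynomial.X (z b j)) =
        Sum.elim (fun x => MvPolynomial.C (ψ x)) MvPolynomial.X (z b j) := by
      intro j
      rcases z b j with x | s
      · exact MvPolynomial.map_C _ _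
      · exact MvPolynomial.map_X _ _
    have hzinj : ∀ i j, n b i ≠ 0 → n b j ≠ 0 →
        Ψ (Sum.elim MvPolynomial.C MvPolynomial.X (z b i)) =
          Ψ (Sum.elim MvPolynomial.C MvPolynomial.X (z b j)) → i = j := by
      intro i j _ _ hij
      rw [hzm, hzm] at hij
      apply hz b
      rcases hi : z b i with x | s <;> rcases hj : z b j with y | s' <;> rw [hi, hj] at hij
      · have h1 := MvPolynomial.C_injective _ _ hij
        rw [hinj x (hT b i x hi) y (hT b j y hj) h1]
      · have h1 := congrArg (MvPolynomial.pderiv s') hij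
        simp at h1
      · have h1 := congrArg (MvPolynomial.pderiv s) hij
        simp at h1
      · rw [MvPolynomial.X_injective hij]
    have hcard : Fintype.card (J b) ≤ ∑ b, Fintype.card (J b) :=
      Finset.single_le_sum (f := fun b => Fintype.card (J b)) (fun _ _ => Nat.zero_le _)
        (Finset.mem_univ b)
    have hqbig : Fintype.card (J b) + 1 ≤ q := by
      have h1 : m * ((∑ b, Fintype.card (J b)) + 1) + 1 ≤ p :=
        (le_max_right _ _).trans ((le_max_right _ _).trans hp)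
      have h2 : m * ((∑ b, Fintype.card (J b)) + 1) ≤ m * q := by omega
      have h3 := Nat.le_of_mul_le_mul_left h2 hm
      omega
    rcases hfree b with ⟨j0, s0, hj0, hs0⟩ | hrig
    swap
    · exact rigid_block p m q hm hq _ (n b) (hn b) hzinj hrig (by omega)
    let δ' : MvPolynomial σ (R ⧸ P) →+ MvPolynomial σ (R ⧸ P) :=
      (MvPolynomial.pderiv (R := R ⧸ P) s0).toLinearMap.toAddMonoidHom
    have hδ' : ∀ x, δ' x = MvPolynomial.pderiv s0 x := fun x => rfl
    refine generic_block' p δ' ?_ m q hm hq _ (n b) (hn b) j0 hj0 hzinj ?_ ?_ hqbig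
    · intro a b
      rw [hδ', hδ', hδ', Derivation.leibniz, smul_eq_mul, smul_eq_mul]
    · intro j _ hj
      rw [hδ', hzm]
      rcases h1 : z b j with x | s
      · simp
      · have hs : s0 ≠ s := by
          rintro rfl
          exact hj (hz b (h1.trans hs0.symm))
        exact MvPolynomial.pderiv_X_of_ne hs.symm
    · rw [hδ', hzm, hs0]
      exact MvPolynomial.pderiv_X_self s0

/-- **Main theorem**: closed points of `Spec A` at which finitely many eigenspaces are ordinary. -/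
theorem main {k σ β : Type*} [Finite σ] [Fintype β] [Field k] [CharZero k] (m : ℕ) (hm : 0 < m)
    (k0 : IntermediateField ℚ k) (t : σ → k) (ht : AlgebraicIndependent k0 t)
    {J : β → Type*} [∀ b, Fintype (J b)] (z : ∀ b, J b → k0 ⊕ σ)
    (hz : ∀ b, Function.Injective (z b)) (n : ∀ b, J b → ℕ) (hn : ∀ b j, n b j < m)
    (hfree : ∀ b, (∃ j s, n b j ≠ 0 ∧ z b j = Sum.inr s) ∨
      rk m (∑ j, if n b j = 0 then 0 else m - n b j) = 0)
    (A : Subalgebra ℤ k) (hA : A.FG) (P : ℕ → β → A[X]) (α : β → A) (hα : ∀ b, α b ≠ 0)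
    (hP : ∀ q b, (P q b).map (algebraMap A k) = C ((α b : k) ^ q) *
      fp (fun j => Sum.elim (algebraMap k0 k) t (z b j)) (fun j => n b j * q))
    (c : A) (hc : c ≠ 0) :
    ∃ N : ℕ, ∀ p q : ℕ, N ≤ p → p.Prime → p = m * q + 1 →
      ∃ M : Ideal A, M.IsMaximal ∧ (p : A) ∈ M ∧ c ∉ M ∧
        ∀ b, (hw p (rk m (∑ j, n b j)) ((P q b).map (Ideal.Quotient.mk M))).det ≠ 0 := by
  classical
  -- the rings
  set S : Set k := ⋃ b, Set.range (fun j => Sum.elim (algebraMap k0 k) (fun _ => 0) (z b j))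
    with hS
  have hSfin : S.Finite := Set.finite_iUnion fun b => Set.finite_range _
  let A0 : Subalgebra ℤ k := Algebra.adjoin ℤ S
  have hA0 : A0.FG := Subalgebra.fg_def.2 ⟨S, hSfin, rfl⟩
  let B : Subalgebra ℤ k := A ⊔ (A0 ⊔ Algebra.adjoin ℤ (Set.range t))
  have hB : B.FG :=
    hA.sup (hA0.sup (Subalgebra.fg_def.2 ⟨Set.range t, Set.finite_range t, rfl⟩))
  have hAB : A ≤ B := le_sup_left
  have hA0B : A0 ≤ B := le_sup_left.trans le_sup_right
  have htB : ∀ i, t i ∈ B := fun i =>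
    (le_sup_right.trans le_sup_right : Algebra.adjoin ℤ (Set.range t) ≤ B)
      (Algebra.subset_adjoin ⟨i, rfl⟩)
  have hle : A0 ≤ k0.toSubalgebra.restrictScalars ℤ := by
    refine Algebra.adjoin_le ?_
    intro x hx
    obtain ⟨b, hx⟩ := Set.mem_iUnion.1 hx
    obtain ⟨j, rfl⟩ := hx
    show Sum.elim (algebraMap k0 k) (fun _ => 0) (z b j) ∈ k0
    rcases z b j with x | s
    · exact x.2
    · exact k0.zero_mem
  have hlA0 : ∀ b j x, z b j = Sum.inl x → (x : k) ∈ A0 := fun b j x hx =>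
    Algebra.subset_adjoin (Set.mem_iUnion.2 ⟨b, j, by
      show Sum.elim (algebraMap k0 k) (fun _ => 0) (z b j) = x
      rw [hx]; rfl⟩)
  -- the branch points as elements of `A0 ⊕ σ`
  have hex : ∀ b j, ∃ y : A0 ⊕ σ, Sum.map (fun x : A0 => (⟨x, hle x.2⟩ : k0)) id y = z b j := by
    intro b j
    rcases h : z b j with x | s
    · exact ⟨Sum.inl ⟨x, hlA0 b j x h⟩, rfl⟩
    · exact ⟨Sum.inr s, rfl⟩
  choose z0 hz0' using hex
  have hz0 : ∀ b, Function.Injective (z0 b) := by
    intro b i j hij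
    apply hz b
    rw [← hz0', ← hz0', hij]
  have hfree0 : ∀ b, (∃ j s, n b j ≠ 0 ∧ z0 b j = Sum.inr s) ∨
      rk m (∑ j, if n b j = 0 then 0 else m - n b j) = 0 := by
    intro b
    refine (hfree b).imp_left ?_
    rintro ⟨j, s, h1, h2⟩
    refine ⟨j, s, h1, ?_⟩
    have h3 := hz0' b j
    rw [h2] at h3
    rcases h4 : z0 b j with x | s'
    · rw [h4] at h3; exact absurd h3 (by simp)
    · rw [h4] at h3
      simp only [Sum.map_inr, id_eq] at h3
      rw [Sum.inr_injective h3]
  have hfA0 : Algebra.FiniteType ℤ A0 := (Subalgebra.fg_iff_finiteType _).mp hA0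
  have hfB : Algebra.FiniteType ℤ B := (Subalgebra.fg_iff_finiteType _).mp hB
  have hfA : Algebra.FiniteType ℤ A := (Subalgebra.fg_iff_finiteType _).mp hA
  -- the map `A0[T] → B`
  let i0 : A0 →+* B := (Subalgebra.inclusion hA0B).toRingHom
  let f : MvPolynomial σ A0 →+* B := MvPolynomial.eval₂Hom i0 (fun i => ⟨t i, htB i⟩)
  have hfk : ∀ P : MvPolynomial σ A0, ((f P : B) : k) = MvPolynomial.aeval t P := by
    intro P
    change (algebraMap B k) (MvPolynomial.eval₂Hom i0 (fun i => ⟨t i, htB i⟩) P) = _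
    rw [MvPolynomial.map_eval₂Hom]
    rfl
  have htr : Function.Injective (MvPolynomial.aeval t : MvPolynomial σ A0 →ₐ[A0] k) := by
    let j : A0 →+* k0 := (algebraMap A0 k).codRestrict _ (fun x => hle x.2)
    have hj : Function.Injective j := by
      intro x y h
      have := congrArg Subtype.val h
      exact Subtype.ext this
    have h2 : ∀ P : MvPolynomial σ A0,
        MvPolynomial.aeval t P = MvPolynomial.aeval t (MvPolynomial.map j P) := by
      intro P
      rw [MvPolynomial.aeval_def, MvPolynomial.aeval_def, MvPolynomial.eval₂_map]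
      rfl
    intro P Q hPQ
    rw [h2, h2] at hPQ
    exact MvPolynomial.map_injective j hj (ht hPQ)
  have hf : Function.Injective f := by
    intro P Q h
    have h1 := congrArg Subtype.val h
    rw [hfk, hfk] at h1
    exact htr h1
  have hft : f.FiniteType := by
    have h1 : (f.comp (algebraMap ℤ (MvPolynomial σ A0))).FiniteType := by
      have : (algebraMap ℤ B).FiniteType := RingHom.finiteType_algebraMap.mpr inferInstance
      rwa [show algebraMap ℤ B = f.comp (algebraMap ℤ (MvPolynomial σ A0)) from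
        RingHom.ext_int _ _] at this
    exact RingHom.FiniteType.of_comp_finiteType h1
  have hJ : IsJacobsonRing A := by
    have := jac_int
    exact isJacobsonRing_of_finiteType (A := ℤ)
  have hNoeth : IsNoetherianRing A0 := Algebra.FiniteType.isNoetherianRing ℤ A0
  let iA : A →+* B := (Subalgebra.inclusion hAB).toRingHom
  have hiA : Function.Injective iA := Subalgebra.inclusion_injective hAB
  have hcα : c * ∏ b, α b ≠ 0 :=
    mul_ne_zero hc (Finset.prod_ne_zero_iff.2 fun b _ => hα b)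
  have hc' : iA (c * ∏ b, α b) ≠ 0 := by rwa [map_ne_zero_iff _ hiA]
  obtain ⟨c0, hc0, hlift⟩ := chev f hf hft (iA (c * ∏ b, α b)) hc'
  obtain ⟨N1, hN1⟩ := large_primes c0 hc0
  obtain ⟨N2, hN2⟩ := exists_prime m hm z0 hz0 n hn hfree0
  have hFB : ∀ q b, (P q b).map iA = C (iA (α b) ^ q) *
      (fp (fun j => Sum.elim MvPolynomial.C MvPolynomial.X (z0 b j) : J b → MvPolynomial σ A0)
        (fun j => n b j * q)).map f := by
    intro q b
    apply map_injective (algebraMap B k) Subtype.val_injective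
    rw [Polynomial.map_mul, Polynomial.map_map, Polynomial.map_map, map_C]
    have e1 : (algebraMap B k).comp iA = algebraMap A k := rfl
    rw [e1, hP, fp_map]
    have e2 : (C ((α b : k) ^ q) : k[X]) = C (algebraMap B k (iA (α b) ^ q)) := by
      rw [map_pow (algebraMap B k)]; rfl
    rw [e2]
    congr 2
    funext j
    rw [← hz0' b j]
    rcases z0 b j with x | s
    · show (x : k) = ((f (MvPolynomial.C x) : B) : k)
      rw [hfk, MvPolynomial.aeval_C]
      rfl
    · show t s = ((f (MvPolynomial.X s) : B) : k)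
      rw [hfk, MvPolynomial.aeval_X]
  refine ⟨max N1 N2, fun p q hp hpp hq => ?_⟩
  obtain ⟨P', hP', hpP', hdP'⟩ := hN2 p q ((le_max_right _ _).trans hp) hpp hq
  obtain ⟨P0, hP0, hPP'⟩ := Ideal.exists_minimalPrimes_le
    (show Ideal.span {(p : MvPolynomial σ A0)} ≤ P' by rw [Ideal.span_le]; simpa using hpP')
  have hPp : P0.IsPrime := hP0.1.1
  have hc0P := hN1 p ((le_max_left _ _).trans hp) hpp P0 hP0
  obtain ⟨Q, hQ, hQP, hcQ⟩ := hlift P0 hPp hc0P
  let M0 : Ideal A := Q.comap iA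
  have hM0 : M0.IsPrime := Ideal.comap_isPrime iA Q
  have hpM0 : (p : A) ∈ M0 := by
    change iA (p : A) ∈ Q
    have h1 : (p : MvPolynomial σ A0) ∈ Q.comap f := by
      rw [hQP]; exact hP0.1.2 (Ideal.subset_span rfl)
    rw [Ideal.mem_comap, map_natCast] at h1
    rwa [map_natCast]
  have hcM0 : c * ∏ b, α b ∉ M0 := hcQ
  have hαM0 : ∀ b, α b ∉ M0 := fun b h =>
    hcM0 (M0.mul_mem_left c (M0.mem_of_dvd (Finset.dvd_prod_of_mem α (Finset.mem_univ b)) h))
  have hdM0 : ∀ b, (hw p (rk m (∑ j, n b j)) (P q b)).det ∉ M0 := by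
    intro b h
    have h1 : iA (hw p (rk m (∑ j, n b j)) (P q b)).det ∈ Q := h
    rw [det_hw_map, hFB, det_hw_C_mul] at h1
    rcases hQ.mem_or_mem h1 with h2 | h2
    · exact hαM0 b (hQ.mem_of_pow_mem _ (hQ.mem_of_pow_mem _ h2))
    · rw [← det_hw_map] at h2
      exact hdP' b (hPP' (hQP ▸ h2))
  have hprod : (c * ∏ b, α b) * ∏ b, (hw p (rk m (∑ j, n b j)) (P q b)).det ∉ M0 := by
    intro hm
    rcases hM0.mem_or_mem hm with h1 | h1
    · exact hcM0 h1
    · obtain ⟨b, -, hb⟩ := (hM0.prod_mem_iff).1 h1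
      exact hdM0 b hb
  have hjac : M0.jacobson = M0 := isJacobsonRing_iff_prime_eq.mp hJ M0 hM0
  rw [← hjac, Ideal.jacobson, Submodule.mem_sInf] at hprod
  push Not at hprod
  obtain ⟨M, ⟨hM0M, hM⟩, hMa⟩ := hprod
  refine ⟨M, hM, hM0M hpM0, fun h1 => hMa (Ideal.mul_mem_right _ M (Ideal.mul_mem_right _ M h1)),
    fun b => ?_⟩
  rw [← det_hw_map]
  intro h1
  refine hMa (Ideal.mul_mem_left M _ ?_)
  exact Ideal.mem_of_dvd M (Finset.dvd_prod_of_mem
    (fun b => (hw p (rk m (∑ j, n b j)) (P q b)).det) (Finset.mem_univ b))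
    (Ideal.Quotient.eq_zero_iff_mem.1 h1)

end Pool.Agent.Q267.SE
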