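import Pool.Agent.Results.MP_2ca583_ag.HasseWittClassification

/-!
Exact differential forms on abelian covers of the projective line: the pairing of two opposite
eigenspaces (a sum of residues).
-/

set_option autoImplicit false

open Polynomial

namespace Pool.Agent.Q267.SE

open Pool.Agent.Results.MP_2ca583_ag.HasseWittClassification (NoTop taylor_coeff_pred
  taylor_coeff_pred_of_noTop exists_antideriv derivative_taylor natCast_ne_zero_of_lt
  coeff_taylor_antideriv)

/-- `∏ (x - z j) ^ (e j)` -/
noncomputable def fp {R J : Type*} [CommRing R] [Fintype J] (z : J → R) (e : J → ℕ) : R[X] :=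
  ∏ j, (X - C (z j)) ^ e j

section

variable {R J : Type*} [CommRing R] [Fintype J] (z : J → R) (e : J → ℕ)

lemma fp_monic : (fp z e).Monic :=
  monic_prod_of_monic _ _ fun j _ => (monic_X_sub_C (z j)).pow _

lemma fp_natDegree [Nontrivial R] : (fp z e).natDegree = ∑ j, e j := by
  unfold fp
  rw [natDegree_prod_of_monic _ _ fun j _ => (monic_X_sub_C (z j)).pow _]
  refine Finset.sum_congr rfl fun j _ => ?_
  rw [(monic_X_sub_C (z j)).natDegree_pow, natDegree_X_sub_C, mul_one]

lemma fp_natDegree_le : (fp z e).natDegree ≤ ∑ j, e j := by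
  rcases subsingleton_or_nontrivial R with h | h
  · rw [Subsingleton.elim (fp z e) 0]; simp
  · exact (fp_natDegree z e).le

lemma pow_dvd_fp (j : J) : (X - C (z j)) ^ e j ∣ fp z e :=
  Finset.dvd_prod_of_mem (fun j => (X - C (z j)) ^ e j) (Finset.mem_univ j)

lemma fp_map {S : Type*} [CommRing S] (φ : R →+* S) :
    (fp z e).map φ = fp (fun j => φ (z j)) e := by
  unfold fp
  simp [Polynomial.map_prod]

end

/-- The pairing of the eigenspaces with exponents `(a, e)` and `(a', e')`. -/
lemma pairing {k : Type*} [Field k] (p : ℕ) [Fact p.Prime] [CharP k p] {J : Type*} [Fintype J]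
    (z : J → k) (hz : Function.Injective z) (μ : k) (hμ : ∀ j, z j ≠ μ) (e e' : J → ℕ)
    (he : ∀ j, e j + e' j + 1 = p) (a a' : ℕ) (ha : a + a' + 1 = p) (ha' : 1 ≤ a') (r r' : ℕ)
    (hr : r + r' ≤ Fintype.card J) (u v w : k[X]) (hu : u.degree < r) (hv : v.degree < r')
    (hw : w.degree < r') (h1 : NoTop p (u * ((X - C μ) ^ a * fp z e)))
    (h2 : NoTop p ((X - C μ) ^ (a' - 1) * fp z e' * ((X - C μ) * v - C (a' : k) * w))) :
    u.eval μ * w.eval μ = 0 := by
  classical
  by_contra hne
  have hun : u.eval μ ≠ 0 := fun h => hne (by rw [h, zero_mul])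
  have hwn : w.eval μ ≠ 0 := fun h => hne (by rw [h, mul_zero])
  have hu0 : u ≠ 0 := by rintro rfl; simp at hun
  have hw0 : w ≠ 0 := by rintro rfl; simp at hwn
  have hug : u.natDegree < r := (natDegree_lt_iff_degree_lt hu0).2 hu
  have hwg : w.natDegree < r' := (natDegree_lt_iff_degree_lt hw0).2 hw
  have hvg : v.natDegree ≤ r' - 1 := by
    rcases eq_or_ne v 0 with rfl | hv0
    · simp
    · have := (natDegree_lt_iff_degree_lt hv0).2 hv; omega
  have hp1 : 1 ≤ p := (Fact.out : p.Prime).one_le
  obtain ⟨P, hP⟩ : ∃ P, P = u * ((X - C μ) ^ a * fp z e) := ⟨_, rfl⟩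
  obtain ⟨V, hV⟩ : ∃ V, V = (X - C μ) ^ (a' - 1) * fp z e' * ((X - C μ) * v - C (a' : k) * w) :=
    ⟨_, rfl⟩
  rw [← hP] at h1
  rw [← hV] at h2
  obtain ⟨G, hG, hGd⟩ := exists_antideriv p _ h1
  -- degree bounds
  have hPd : P.natDegree ≤ (r - 1) + (a + ∑ j, e j) := by
    rw [hP]
    refine le_trans natDegree_mul_le ?_
    have e1 : ((X - C μ) ^ a * fp z e).natDegree ≤ a + ∑ j, e j := by
      refine le_trans natDegree_mul_le ?_
      have := fp_natDegree_le z e
      have h3 : ((X - C μ) ^ a : k[X]).natDegree ≤ a := by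
        rw [natDegree_pow, natDegree_X_sub_C, mul_one]
      omega
    omega
  have hVd : V.natDegree ≤ (a' - 1) + (∑ j, e' j) + r' := by
    rw [hV]
    refine le_trans natDegree_mul_le ?_
    have e1 : ((X - C μ) ^ (a' - 1) * fp z e').natDegree ≤ (a' - 1) + ∑ j, e' j := by
      refine le_trans natDegree_mul_le ?_
      have := fp_natDegree_le z e'
      have h3 : ((X - C μ) ^ (a' - 1) : k[X]).natDegree ≤ a' - 1 := by
        rw [natDegree_pow, natDegree_X_sub_C, mul_one]
      omega
    have e2 : ((X - C μ) * v - C (a' : k) * w).natDegree ≤ r' := by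
      refine (natDegree_sub_le _ _).trans (max_le ?_ ?_)
      · refine le_trans natDegree_mul_le ?_
        rw [natDegree_X_sub_C]; omega
      · exact le_trans (natDegree_C_mul_le _ _) (by omega)
    omega
  obtain ⟨W, hW⟩ : ∃ W, W = G * V := ⟨_, rfl⟩
  have hsum : (∑ j, e j) + (∑ j, e' j) + Fintype.card J = Fintype.card J * p := by
    have : ∑ j, (e j + e' j + 1) = Fintype.card J * p := by
      rw [Finset.sum_congr rfl fun j _ => he j]; simp
    rw [Finset.sum_add_distrib, Finset.sum_add_distrib] at this
    simpa using this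
  have hWd : W.natDegree < Fintype.card J * p + (p - 1) := by
    rw [hW]
    refine lt_of_le_of_lt natDegree_mul_le ?_
    omega
  -- the polynomial Q
  obtain ⟨Q, hQ⟩ : ∃ Q : k[X], Q = ∑ i ∈ Finset.range (W.natDegree + 1),
    monomial i (W.coeff (i * p + (p - 1))) := ⟨_, rfl⟩
  have hQeval : ∀ a : k, Q.eval (a ^ p) = (taylor a W).coeff (p - 1) := by
    intro a
    rw [taylor_coeff_pred p W a, hQ, eval_finsetSum]
    simp only [eval_monomial]
  have hQcoeff : ∀ n, Fintype.card J ≤ n → Q.coeff n = 0 := by
    intro n hn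
    rw [hQ, finsetSum_coeff]
    apply Finset.sum_eq_zero
    intro i _
    rw [coeff_monomial]
    split_ifs with hin
    · rw [hin]
      apply coeff_eq_zero_of_natDegree_lt
      have : Fintype.card J * p ≤ n * p := Nat.mul_le_mul_right p hn
      omega
    · rfl
  -- local computation at the fixed points
  have hloc : ∀ j, (taylor (z j) W).coeff (p - 1) = 0 := by
    intro j
    have hdP : (X - C (z j)) ^ e j ∣ P := by
      rw [hP]; exact ((pow_dvd_fp z e j).mul_left _).mul_left _
    have hdV : (X - C (z j)) ^ e' j ∣ V := by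
      rw [hV]; exact ((pow_dvd_fp z e' j).mul_left _).mul_right _
    obtain ⟨V', hV'⟩ := hdV
    rw [hW, taylor_mul, coeff_mul]
    apply Finset.sum_eq_zero
    rintro ⟨i, i'⟩ hij
    rw [Finset.HasAntidiagonal.mem_antidiagonal] at hij
    simp only at hij ⊢
    have hej := he j
    by_cases hi0 : i = 0
    · have : i' = p - 1 := by omega
      rw [this, taylor_coeff_pred_of_noTop p V _ h2, mul_zero]
    · by_cases hiN : i ≤ e j
      · rw [coeff_taylor_antideriv p G _ hG (z j) (e j) (by omega) hdP i (by omega) hiN, zero_mul]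
      · have hj : (taylor (z j) V).coeff i' = 0 := by
          rw [hV', taylor_mul, taylor_pow]
          have h3 : taylor (z j) (X - C (z j)) = X := by simp
          rw [h3, coeff_X_pow_mul', if_neg (by omega)]
        rw [hj, mul_zero]
  have hQ0 : Q = 0 := by
    by_contra hQne
    have hinj : Function.Injective (fun a : k => a ^ p) := by
      intro a b hab
      exact frobenius_inj k p (by simpa [frobenius_def] using hab)
    apply hQne
    apply eq_zero_of_natDegree_lt_card_of_eval_eq_zero' Q
      ((Finset.univ.image z).image (fun a => a ^ p))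
    · intro b hb
      obtain ⟨a, ha, rfl⟩ := Finset.mem_image.1 hb
      obtain ⟨j, -, rfl⟩ := Finset.mem_image.1 ha
      rw [hQeval, hloc j]
    · rw [Finset.card_image_of_injective _ hinj, Finset.card_image_of_injective _ hz,
        Finset.card_univ]
      rw [natDegree_lt_iff_degree_lt hQne, degree_lt_iff_coeff_zero]
      exact hQcoeff
  have hμW : (taylor μ W).coeff (p - 1) = 0 := by
    rw [← hQeval, hQ0, eval_zero]
  -- local computation at μ
  have hdP : (X - C μ) ^ a ∣ P := by
    rw [hP]; exact ((dvd_refl _).mul_right _).mul_left _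
  have heμ : ∀ f : J → ℕ, (fp z f).eval μ ≠ 0 := by
    intro f
    unfold fp
    rw [eval_prod, Finset.prod_ne_zero_iff]
    intro j _
    rw [eval_pow, eval_sub, eval_X, eval_C]
    exact pow_ne_zero _ (sub_ne_zero.2 (hμ j).symm)
  have hτ : taylor μ (X - C μ) = X := by simp
  have hτV : taylor μ V = X ^ (a' - 1) * (taylor μ (fp z e')
      * (X * taylor μ v - C (a' : k) * taylor μ w)) := by
    have e1 : taylor μ ((X - C μ) * v - C (a' : k) * w)
        = X * taylor μ v - C (a' : k) * taylor μ w := by
      rw [map_sub (taylor μ) ((X - C μ) * v), taylor_mul, taylor_mul, hτ, taylor_C]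
    rw [hV, taylor_mul, taylor_mul, taylor_pow, e1, hτ]
    ring
  have hs : (taylor μ W).coeff (p - 1)
      = (taylor μ G).coeff (a + 1) * (taylor μ V).coeff (a' - 1) := by
    rw [hW, taylor_mul, coeff_mul, Finset.sum_eq_single (a + 1, a' - 1)]
    · rintro ⟨i, j⟩ hij hne'
      rw [Finset.HasAntidiagonal.mem_antidiagonal] at hij
      simp only at hij ⊢
      by_cases hi0 : i = 0
      · have : j = p - 1 := by omega
        rw [this, taylor_coeff_pred_of_noTop p V μ h2, mul_zero]
      · by_cases hiN : i ≤ a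
        · rw [coeff_taylor_antideriv p G _ hG μ a (by omega) hdP i (by omega) hiN, zero_mul]
        · have hiN' : i ≠ a + 1 := by
            intro h0
            apply hne'
            rw [h0]
            congr 1
            omega
          rw [hτV, coeff_X_pow_mul', if_neg (by omega), mul_zero]
    · intro hnot
      exact absurd (Finset.HasAntidiagonal.mem_antidiagonal.2 (by omega)) hnot
  have hVc : (taylor μ V).coeff (a' - 1) = (fp z e').eval μ * (-(a' : k) * w.eval μ) := by
    rw [hτV, coeff_X_pow_mul', if_pos le_rfl, Nat.sub_self, coeff_zero_eq_eval_zero]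
    simp only [eval_mul, eval_sub, eval_X, eval_C, taylor_eval]
    ring_nf
  have hGc : (taylor μ G).coeff (a + 1) * ((a : k) + 1) = u.eval μ * (fp z e).eval μ := by
    have e1 : (derivative (taylor μ G)).coeff a = (taylor μ G).coeff (a + 1) * ((a : k) + 1) :=
      coeff_derivative _ _
    rw [← e1, derivative_taylor, hG, hP, taylor_mul, taylor_mul, taylor_pow, hτ]
    have e2 : taylor μ u * (X ^ a * taylor μ (fp z e)) = X ^ a * (taylor μ u * taylor μ (fp z e)) := by
      ring
    rw [e2, coeff_X_pow_mul', if_pos le_rfl, Nat.sub_self, coeff_zero_eq_eval_zero]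
    simp only [eval_mul, taylor_eval, zero_add]
  have hNk : (a' : k) ≠ 0 := natCast_ne_zero_of_lt p a' ha' (by omega)
  rw [hs, hVc] at hμW
  have : (u.eval μ * (fp z e).eval μ) * ((fp z e').eval μ * (-(a' : k) * w.eval μ)) = 0 := by
    rw [← hGc]
    linear_combination ((a : k) + 1) * hμW
  have h5 : (u.eval μ * (fp z e).eval μ) * ((fp z e').eval μ * (-(a' : k) * w.eval μ)) ≠ 0 :=
    mul_ne_zero (mul_ne_zero hun (heμ e))
      (mul_ne_zero (heμ e') (mul_ne_zero (neg_ne_zero.2 hNk) hwn))
  exact h5 this

end Pool.Agent.Q267.SE
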